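import Pool.Agent.Lib.MP_a7239a_co.KP.Defs

/-!
# THEOREM K: directions, pairs, lower bound (helper62)
-/

set_option autoImplicit false

open Finset

namespace Pool.Agent.Lib.MPa7239a.KP

/-- no `p` distinct elements of `A` have sum zero -/
def NoZ (p : ℕ) (A : Finset (ZMod p × ZMod p)) : Prop := ∀ T ⊆ A, #T = p → ∑ x ∈ T, x ≠ 0

/-- the statement of `weights` -/
def WSpec (p : ℕ) [NeZero p] : Prop := ∀ n : ZMod p → ℕ, ∑ v, n v + 1 = 2 * p → (∀ v, n v < p) → BAD p n →
  ∃ u, n u = 0 ∧ ∀ v, v ≠ u → 1 ≤ n v ∧ n v ≤ 3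

/-- the statement of `lift_k` -/
def LSpec (p : ℕ) [NeZero p] : Prop := ∀ (A : Finset (ZMod p × ZMod p)) (c : ZMod p → ℕ),
  (∀ v, c v ≤ #(A.filter (fun a => a.1 = v))) → ∑ v, c v = p → ∑ v, c v • v = 0 →
  p ≤ ∑ v, F #(A.filter (fun a => a.1 = v)) (c v) + 1 → ∃ T ⊆ A, #T = p ∧ ∑ a ∈ T, a = 0

section

variable {p : ℕ} [Fact p.Prime]

theorem NoZ.subset {A B : Finset (ZMod p × ZMod p)} (hB : NoZ p B) (h : A ⊆ B) : NoZ p A :=
  fun T hT => hB T (hT.trans h)

theorem NoZ.map {A : Finset (ZMod p × ZMod p)} (hA : NoZ p A) (e : (ZMod p × ZMod p) ≃+ (ZMod p × ZMod p)) :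
    NoZ p (A.map e.toEquiv.toEmbedding) := by
  intro T hT hc h0
  refine hA (T.map e.symm.toEquiv.toEmbedding) ?_ (by rw [card_map]; exact hc) ?_
  · intro a ha
    obtain ⟨b, hb, rfl⟩ := mem_map.1 ha
    obtain ⟨a', ha', rfl⟩ := mem_map.1 (hT hb)
    simpa using ha'
  · rw [sum_map]
    simp only [Equiv.coe_toEmbedding, AddEquiv.toEquiv_eq_coe, EquivLike.coe_coe]
    rw [← map_sum, h0, map_zero]

theorem sum_all (hp : 3 ≤ p) : ∑ y : ZMod p, y = 0 := by
  have h2 : (2 : ZMod p) ≠ 0 := by
    intro h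
    have h' : ((2 : ℕ) : ZMod p) = 0 := by exact_mod_cast h
    rw [ZMod.natCast_eq_zero_iff] at h'
    have := Nat.le_of_dvd (by norm_num) h'
    omega
  have h1 : ∑ y : ZMod p, y = ∑ y : ZMod p, (y + 1) := (Equiv.sum_comp (Equiv.addRight (1 : ZMod p)) id).symm
  have h3 : ∑ y : ZMod p, y = ∑ y : ZMod p, -y := (Equiv.sum_comp (Equiv.neg (ZMod p)) id).symm
  rw [sum_neg_distrib] at h3
  have h4 : (2 : ZMod p) * ∑ y : ZMod p, y = 0 := by
    linear_combination h3
  exact (mul_eq_zero.1 h4).resolve_left h2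

/-- a full line has sum zero -/
theorem fibre_lt (hp : 3 ≤ p) {A : Finset (ZMod p × ZMod p)} (hA : NoZ p A) (v : ZMod p) :
    #(A.filter (fun a => a.1 = v)) < p := by
  by_contra h
  push_neg at h
  have hsub : A.filter (fun a => a.1 = v) ⊆ univ.map ⟨fun y : ZMod p => (v, y), fun a b hab => (Prod.ext_iff.1 hab).2⟩ := by
    intro a ha
    rw [mem_filter] at ha
    refine mem_map.2 ⟨a.2, mem_univ _, ?_⟩
    simp [← ha.2]
  have hcard : #(univ.map (⟨fun y : ZMod p => (v, y), fun a b hab => (Prod.ext_iff.1 hab).2⟩ :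
      ZMod p ↪ ZMod p × ZMod p)) = p := by
    rw [card_map, card_univ, ZMod.card]
  have heq := eq_of_subset_of_card_le hsub (by rw [hcard]; exact h)
  refine hA _ (filter_subset (fun a => a.1 = v) A) (by rw [heq, hcard]) ?_
  rw [heq, sum_map]
  simp only [Function.Embedding.coeFn_mk]
  ext
  · rw [Prod.fst_sum]
    simp
  · rw [Prod.snd_sum]
    simpa using sum_all hp

theorem bad_of (hL : LSpec p) {A : Finset (ZMod p × ZMod p)} (hA : NoZ p A) :
    BAD p fun v => #(A.filter (fun a => a.1 = v)) := by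
  intro c hc hs h0
  by_contra h
  push_neg at h
  obtain ⟨T, hT, hT1, hT2⟩ := hL A c hc hs h0 (by omega)
  exact hA T hT hT1 hT2

theorem sum_fibre {ι : Type} {A : Finset ι} (f : ι → ZMod p) : ∑ v, #(A.filter (fun a => f a = v)) = #A :=
  (card_eq_sum_card_fiberwise (f := f) (t := univ) fun _ _ => mem_coe.2 (mem_univ _)).symm

/-- the sum of the squares of the fibre sizes, one direction -/
theorem squares (hp : 3 ≤ p) (hW : WSpec p) (hL : LSpec p) {A : Finset (ZMod p × ZMod p)} (hA : NoZ p A)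
    (hc : #A + 1 = 2 * p) (e : (ZMod p × ZMod p) ≃+ (ZMod p × ZMod p)) :
    ∑ v, #(A.filter (fun a => (e a).1 = v)) ^ 2 + 1 ≤ 5 * p := by
  have hfib : ∀ v, #((A.map e.toEquiv.toEmbedding).filter (fun a => a.1 = v)) =
      #(A.filter (fun a => (e a).1 = v)) := by
    intro v
    rw [filter_map, card_map]
    rfl
  obtain ⟨u, hu, huv⟩ := hW (fun v => #(A.filter (fun a => (e a).1 = v)))
    (by rw [sum_fibre, hc]) (fun v => by rw [← hfib]; exact fibre_lt hp (hA.map e) v)
    (by
      have := bad_of hL (hA.map e)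
      simp only [hfib] at this
      exact this)
  have h1 : ∀ v, #(A.filter (fun a => (e a).1 = v)) ^ 2 + 3 * (if v = u then 0 else 1) ≤
      4 * #(A.filter (fun a => (e a).1 = v)) := by
    intro v
    by_cases hv : v = u
    · subst hv
      rw [hu]
      simp
    · obtain ⟨h1, h3⟩ := huv v hv
      rw [if_neg hv]
      generalize #(A.filter (fun a => (e a).1 = v)) = k at h1 h3
      interval_cases k <;> norm_num
  have h2 := sum_le_sum fun v (_ : v ∈ (univ : Finset (ZMod p))) => h1 v
  rw [sum_add_distrib, ← mul_sum, ← mul_sum, sum_fibre] at h2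
  have h3 : ∑ v : ZMod p, (if v = u then 0 else 1) + 1 = p := by
    have h4 : ∑ v : ZMod p, ((if v = u then 0 else 1) + if v = u then 1 else 0) = p := by
      have : ∀ v : ZMod p, ((if v = u then 0 else 1) + if v = u then 1 else 0) = 1 := fun v => by
        split_ifs <;> rfl
      simp [this, ZMod.card]
    rw [sum_add_distrib] at h4
    simpa using h4
  omega

/-- the directions -/
def dir (d : Option (ZMod p)) : (ZMod p × ZMod p) ≃+ (ZMod p × ZMod p) :=
  match d with
  | none => AddEquiv.prodComm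
  | some t =>
    { toFun := fun a => (a.1 + t * a.2, a.2)
      invFun := fun a => (a.1 - t * a.2, a.2)
      left_inv := fun a => by simp
      right_inv := fun a => by simp
      map_add' := fun a b => by
        ext
        · simp only [Prod.fst_add, Prod.snd_add]
          ring
        · rfl }

theorem dir_none (a : ZMod p × ZMod p) : (dir none a).1 = a.2 := rfl

theorem dir_some (t : ZMod p) (a : ZMod p × ZMod p) : (dir (some t) a).1 = a.1 + t * a.2 := rfl

theorem exists_dir (a b : ZMod p × ZMod p) : ∃ d, (dir d a).1 = (dir d b).1 := by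
  by_cases h : a.2 = b.2
  · exact ⟨none, h⟩
  · refine ⟨some (-(a.1 - b.1) / (a.2 - b.2)), ?_⟩
    rw [dir_some, dir_some]
    have h' : a.2 - b.2 ≠ 0 := sub_ne_zero.2 h
    field_simp
    ring

theorem pairs_eq (A : Finset (ZMod p × ZMod p)) (f : ZMod p × ZMod p → ZMod p) :
    #((A ×ˢ A).filter (fun z => f z.1 = f z.2)) = ∑ v, #(A.filter (fun a => f a = v)) ^ 2 := by
  rw [card_eq_sum_card_fiberwise (f := fun z => f z.1) (t := univ) fun _ _ => mem_coe.2 (mem_univ _)]
  refine sum_congr rfl fun v _ => ?_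
  rw [sq, ← card_product]
  congr 1
  ext z
  simp only [mem_filter, mem_product]
  constructor
  · rintro ⟨⟨⟨h1, h2⟩, h3⟩, h4⟩
    exact ⟨⟨h1, h4⟩, h2, h3 ▸ h4⟩
  · rintro ⟨⟨h1, h4⟩, h2, h5⟩
    exact ⟨⟨⟨h1, h2⟩, h4.trans h5.symm⟩, h4⟩

/-- every pair lies in a direction -/
theorem pairs_le (A : Finset (ZMod p × ZMod p)) :
    #A ^ 2 + p * #A ≤ ∑ d : Option (ZMod p), ∑ v, #(A.filter (fun a => (dir d a).1 = v)) ^ 2 := by
  classical
  simp only [← pairs_eq]
  simp only [card_filter]
  rw [sum_comm]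
  have h1 : #A ^ 2 + p * #A = ∑ z ∈ A ×ˢ A, (1 + p * if z.1 = z.2 then 1 else 0) := by
    rw [sum_add_distrib, ← mul_sum, sum_const, smul_eq_mul, mul_one, card_product, sq, ← card_filter]
    congr 2
    have : (A ×ˢ A).filter (fun z => z.1 = z.2) = A.map ⟨fun a => (a, a), fun a b h => (Prod.ext_iff.1 h).1⟩ := by
      ext z
      simp only [mem_filter, mem_product, mem_map, Function.Embedding.coeFn_mk]
      constructor
      · rintro ⟨⟨h1, _⟩, h3⟩
        exact ⟨z.1, h1, Prod.ext rfl h3⟩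
      · rintro ⟨a, ha, rfl⟩
        exact ⟨⟨ha, ha⟩, rfl⟩
    rw [this, card_map]
  rw [h1]
  refine sum_le_sum fun z _ => ?_
  by_cases hz : z.1 = z.2
  · rw [if_pos hz]
    have : ∀ d : Option (ZMod p), (if (dir d z.1).1 = (dir d z.2).1 then 1 else 0) = 1 := fun d => by rw [hz, if_pos rfl]
    simp only [this, sum_const, smul_eq_mul, mul_one, card_univ, Fintype.card_option, ZMod.card]
    omega
  · rw [if_neg hz]
    obtain ⟨d, hd⟩ := exists_dir z.1 z.2
    refine le_trans ?_ (single_le_sum (f := fun d => if (dir d z.1).1 = (dir d z.2).1 then 1 else 0)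
      (fun _ _ => Nat.zero_le _) (mem_univ d))
    simp only [hd, if_true]
    omega

/-- the upper bound -/
theorem upper (hp : 11 ≤ p) (hW : WSpec p) (hL : LSpec p) {A : Finset (ZMod p × ZMod p)} (hA : NoZ p A) :
    #A ≤ 2 * p - 2 := by
  by_contra h
  push_neg at h
  obtain ⟨B, hBA, hB⟩ := exists_subset_card_eq (s := A) (n := 2 * p - 1) (by omega)
  have h1 := pairs_le B
  have h2 : ∀ d : Option (ZMod p), ∑ v, #(B.filter (fun a => (dir d a).1 = v)) ^ 2 ≤ 5 * p - 1 := fun d => by
    have := squares (by omega) hW hL (hA.subset hBA) (by omega) (dir d)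
    omega
  have h3 := sum_le_sum fun d (_ : d ∈ (univ : Finset (Option (ZMod p)))) => h2 d
  rw [sum_const, smul_eq_mul, card_univ, Fintype.card_option, ZMod.card] at h3
  have h4 := h1.trans h3
  rw [hB] at h4
  obtain ⟨q, rfl⟩ : ∃ q, p = q + 11 := ⟨p - 11, by omega⟩
  have e1 : 2 * (q + 11) - 1 = 2 * q + 21 := by omega
  have e2 : 5 * (q + 11) - 1 = 5 * q + 54 := by omega
  rw [e1, e2] at h4
  nlinarith

/-- the lower bound -/
theorem lower : ∃ A : Finset (ZMod p × ZMod p), #A = 2 * p - 2 ∧ NoZ p A := by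
  classical
  have hp : p.Prime := Fact.out
  have h2 := hp.two_le
  have h01 : (0 : ZMod p) ≠ 1 := zero_ne_one
  refine ⟨{0, 1} ×ˢ univ.erase 0, ?_, ?_⟩
  · rw [card_product, card_pair h01, card_erase_of_mem (mem_univ _), card_univ, ZMod.card]
    omega
  · intro T hT hc h0
    -- the number of the elements with first coordinate `1`
    have hfst : ((#(T.filter fun a => a.1 = 1) : ℕ) : ZMod p) = 0 := by
      have h1 : ∑ a ∈ T, a.1 = 0 := by
        rw [← Prod.fst_sum, h0]
        rfl
      rw [← h1, card_filter, Nat.cast_sum]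
      refine sum_congr rfl fun a ha => ?_
      have := hT ha
      simp only [mem_product, mem_insert, mem_singleton] at this
      rcases this.1 with h | h
      · rw [h, if_neg h01]
        simp
      · rw [h, if_pos rfl]
        simp
    rw [ZMod.natCast_eq_zero_iff] at hfst
    have hlev : ∀ v : ZMod p, #(T.filter fun a => a.1 = v) ≤ p - 1 := by
      intro v
      have hsub : T.filter (fun a => a.1 = v) ⊆ {v} ×ˢ univ.erase 0 := by
        intro a ha
        rw [mem_filter] at ha
        have := hT ha.1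
        rw [mem_product] at this ⊢
        exact ⟨by rw [mem_singleton]; exact ha.2, this.2⟩
      refine (card_le_card hsub).trans ?_
      rw [card_product, card_singleton, card_erase_of_mem (mem_univ _), card_univ, ZMod.card, one_mul]
    have h1 : #(T.filter fun a => a.1 = 1) = 0 := by
      by_contra hne
      have := Nat.le_of_dvd (Nat.pos_of_ne_zero hne) hfst
      have := hlev 1
      omega
    have hT0 : T = T.filter fun a => a.1 = 0 := by
      ext a
      rw [mem_filter]
      refine ⟨fun ha => ⟨ha, ?_⟩, fun ha => ha.1⟩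
      have := hT ha
      simp only [mem_product, mem_insert, mem_singleton] at this
      rcases this.1 with h | h
      · exact h
      · rw [card_eq_zero, filter_eq_empty_iff] at h1
        exact absurd h (h1 ha)
    have := hlev 0
    rw [← hT0, hc] at this
    omega

theorem exactK_of (hp : 11 ≤ p) (hW : WSpec p) (hL : LSpec p) :
    sSup {k | ∃ A : Finset (ZMod p × ZMod p), #A = k ∧ ∀ T ⊆ A, #T = p → ∑ x ∈ T, x ≠ 0} = 2 * p - 2 := by
  refine IsGreatest.csSup_eq ⟨lower, ?_⟩
  rintro k ⟨A, rfl, hA⟩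
  exact upper hp hW hL hA

end

end Pool.Agent.Lib.MPa7239a.KP
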