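import Pool.Agent.Lib.MP_a7239a_co.TP.Comb

/-!
# Definitions for `Z_p × Z_p`
-/

open scoped Pointwise
open Finset

namespace Pool.Agent.Lib.MPa7239a.KP

/-- lower bound, minus one, for the number of sums of `c` distinct elements of an `a`-set -/
def F (a c : ℕ) : ℕ :=
  if c = 0 ∨ a ≤ c then 0 else if c = 1 ∨ c + 1 = a then a - 1 else 2 * max c (a - c)

/-- the sums of `c` distinct elements of `B` -/
def ss {p : ℕ} (c : ℕ) (B : Finset (ZMod p)) : Finset (ZMod p) :=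
  (B.powersetCard c).image (fun T => ∑ a ∈ T, a)

/-- no type lifts -/
def BAD (p : ℕ) [NeZero p] (n : ZMod p → ℕ) : Prop :=
  ∀ c : ZMod p → ℕ, (∀ v, c v ≤ n v) → ∑ v, c v = p → ∑ v, c v • v = 0 →
    ∑ v, F (n v) (c v) + 2 ≤ p

end Pool.Agent.Lib.MPa7239a.KP
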