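import Pool.Agent.Lib.MP_a7239a_co.TP.LemA

/-!
# The Erdős–Heilbronn inequality for two summands in `ZMod p`

`#(tw B) ≥ min p (2 #B - 3)`, by the polynomial method (Alon, Nathanson, Ruzsa).
-/

open scoped Pointwise
open Finset

namespace Pool.Agent.Lib.MPa7239a.KP

open Pool.Agent.Lib.MPa7239a.TP

section coeff

open MvPolynomial

variable {R : Type*} [CommRing R]

theorem coeff_two_pow {m i j : ℕ} (h : i + j = m) :
    coeff (Finsupp.single 0 i + Finsupp.single 1 j) ((X 0 + X 1 : MvPolynomial (Fin 2) R) ^ m) =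
      (m.choose i : R) := by
  classical
  rw [add_pow, coeff_sum, sum_eq_single i]
  · rw [X_pow_eq_monomial, X_pow_eq_monomial, monomial_mul, one_mul,
      show ((m.choose i : ℕ) : MvPolynomial (Fin 2) R) = C (m.choose i : R) by simp, mul_comm,
      coeff_C_mul, coeff_monomial, if_pos (by rw [show m - i = j by omega]), mul_one]
  · intro k hk hki
    rw [X_pow_eq_monomial, X_pow_eq_monomial, monomial_mul, one_mul,
      show ((m.choose k : ℕ) : MvPolynomial (Fin 2) R) = C (m.choose k : R) by simp, mul_comm,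
      coeff_C_mul, coeff_monomial, if_neg, mul_zero]
    intro hcon
    apply hki
    have := DFunLike.congr_fun hcon 0
    simpa using this
  · intro hi
    rw [mem_range] at hi
    omega

theorem coeff_top (N : ℕ) :
    coeff (Finsupp.single 0 N + Finsupp.single 1 (N + 1))
      ((X 0 - X 1 : MvPolynomial (Fin 2) R) * (X 0 + X 1) ^ (2 * N)) * ((N + 1 : ℕ) : R) =
      -((2 * N).choose N : R) := by
  classical
  rw [sub_mul, coeff_sub, coeff_X_mul', coeff_X_mul']
  have h1 : (1 : Fin 2) ∈ (Finsupp.single 0 N + Finsupp.single 1 (N + 1) : Fin 2 →₀ ℕ).support := by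
    rw [Finsupp.mem_support_iff]
    simp
  have h2 : (Finsupp.single 0 N + Finsupp.single 1 (N + 1) - Finsupp.single 1 1 : Fin 2 →₀ ℕ) =
      Finsupp.single 0 N + Finsupp.single 1 N := by
    ext i
    fin_cases i <;> simp
  rw [if_pos h1, h2, coeff_two_pow (by omega)]
  rcases Nat.eq_zero_or_pos N with h | h
  · subst h
    simp
  · have h3 : (0 : Fin 2) ∈
        (Finsupp.single 0 N + Finsupp.single 1 (N + 1) : Fin 2 →₀ ℕ).support := by
      rw [Finsupp.mem_support_iff]
      simp
      omega
    have h4 : (Finsupp.single 0 N + Finsupp.single 1 (N + 1) - Finsupp.single 0 1 :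
        Fin 2 →₀ ℕ) = Finsupp.single 0 (N - 1) + Finsupp.single 1 (N + 1) := by
      ext i
      fin_cases i <;> simp
    rw [if_pos h3, h4, coeff_two_pow (by omega)]
    have h5 := Nat.choose_succ_right_eq (2 * N) (N - 1)
    rw [show N - 1 + 1 = N by omega, show 2 * N - (N - 1) = N + 1 by omega] at h5
    have h6 : (((2 * N).choose (N - 1) * (N + 1) : ℕ) : R) = (((2 * N).choose N * N : ℕ) : R) := by
      rw [h5]
    push_cast at h6 ⊢
    rw [sub_mul, h6]
    ring

end coeff

section main

open MvPolynomial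

variable {p : ℕ} [Fact p.Prime]

/-- the case `2 #B - 3 ≤ p` -/
theorem eh_aux {B : Finset (ZMod p)} {N : ℕ} (hB : #B = N + 2) (hN : 2 * N + 1 ≤ p) :
    2 * N + 1 ≤ #(tw B) := by
  classical
  have hpp : p.Prime := Fact.out
  by_contra hcon
  push Not at hcon
  have hcard : Fintype.card (ZMod p) = p := ZMod.card p
  obtain ⟨T, hT, _, hTc⟩ := exists_subsuperset_card_eq (subset_univ (tw B)) (n := 2 * N)
    (by omega) (by rw [card_univ, hcard]; omega)
  obtain ⟨b, hb⟩ : B.Nonempty := card_pos.1 (by omega)
  set S : MvPolynomial (Fin 2) (ZMod p) := X 0 + X 1 with hS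
  set P : Polynomial (ZMod p) := ∏ c ∈ T, (Polynomial.X - Polynomial.C c) with hP
  have hPd : P.natDegree = 2 * N := by
    rw [hP, Polynomial.natDegree_finsetProd_X_sub_C_eq_card, hTc]
  have hPm : P.coeff (2 * N) = 1 := by
    have h1 : P.Monic := Polynomial.monic_prod_X_sub_C _ _
    rw [← hPd]
    exact h1
  set f : MvPolynomial (Fin 2) (ZMod p) := (X 0 - X 1) * ∏ c ∈ T, (S - C c) with hf
  have hprod : ∏ c ∈ T, (S - C c) = ∑ i ∈ range (2 * N + 1), C (P.coeff i) * S ^ i := by
    have h1 : Polynomial.aeval S P = ∏ c ∈ T, (S - C c) := by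
      rw [hP, map_prod]
      refine prod_congr rfl fun c _ => ?_
      rw [map_sub, Polynomial.aeval_X, Polynomial.aeval_C]
      rfl
    rw [← h1, Polynomial.aeval_eq_sum_range, hPd]
    exact sum_congr rfl fun i _ => by rw [smul_eq_C_mul]
  set t : Fin 2 →₀ ℕ := Finsupp.single 0 N + Finsupp.single 1 (N + 1) with ht
  have htd : t.degree = 2 * N + 1 := by
    rw [ht, map_add, Finsupp.degree_single, Finsupp.degree_single]
    omega
  have hcoef : coeff t f = coeff t ((X 0 - X 1) * S ^ (2 * N)) := by
    rw [hf, hprod, mul_sum, coeff_sum, sum_eq_single (2 * N)]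
    · rw [hPm, C_1, one_mul]
    · intro i _ hi
      rw [mul_left_comm, coeff_C_mul]
      have h1 : ((X 0 - X 1) * S ^ i : MvPolynomial (Fin 2) (ZMod p)).IsHomogeneous (1 + 1 * i) :=
        ((isHomogeneous_X _ _).sub (isHomogeneous_X _ _)).mul
          (((isHomogeneous_X _ _).add (isHomogeneous_X _ _)).pow i)
      rw [h1.coeff_eq_zero (by rw [htd]; omega), mul_zero]
    · intro h
      exact absurd (mem_range.2 (by omega)) h
  have hne : coeff t f ≠ 0 := by
    intro h0
    have h1 := coeff_top (R := ZMod p) N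
    rw [← ht, ← hS, ← hcoef, h0, zero_mul] at h1
    have h2 : (((2 * N).choose N : ℕ) : ZMod p) = 0 := by
      rw [← neg_eq_zero, ← h1]
    rw [ZMod.natCast_eq_zero_iff] at h2
    have h3 : p ∣ (2 * N).factorial := by
      have h4 := Nat.choose_mul_factorial_mul_factorial (show N ≤ 2 * N by omega)
      rw [← h4]
      exact (h2.mul_right _).mul_right _
    have h5 := (hpp.dvd_factorial).1 h3
    omega
  have htot : f.totalDegree = t.degree := by
    apply le_antisymm
    · rw [htd, hf]
      refine le_trans (totalDegree_mul _ _) ?_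
      have h1 : (X 0 - X 1 : MvPolynomial (Fin 2) (ZMod p)).totalDegree ≤ 1 :=
        le_trans (totalDegree_sub _ _) (by rw [totalDegree_X, totalDegree_X]; exact le_refl _)
      have h2 : (∏ c ∈ T, (S - C c)).totalDegree ≤ 2 * N := by
        refine le_trans (totalDegree_finsetProd _ _) ?_
        rw [← hTc, card_eq_sum_ones]
        refine sum_le_sum fun c _ => ?_
        refine le_trans (totalDegree_sub _ _) ?_
        rw [totalDegree_C]
        refine max_le ?_ (Nat.zero_le _)
        exact le_trans (totalDegree_add _ _) (by rw [totalDegree_X, totalDegree_X]; exact le_refl _)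
      omega
    · exact le_totalDegree (mem_support_iff.2 hne)
  obtain ⟨s, hs, hsf⟩ := combinatorial_nullstellensatz_exists_eval_nonzero f t hne htot
    (fun i => if i = 0 then B.erase b else B) (by
      intro i
      fin_cases i
      · simp [ht, card_erase_of_mem hb, hB]
      · simp [ht, hB])
  have hs0 := hs 0
  have hs1 := hs 1
  simp only [if_true, mem_erase] at hs0
  rw [if_neg (by decide)] at hs1
  apply hsf
  rw [hf, map_mul, map_prod]
  by_cases hxy : s 0 = s 1
  · rw [map_sub, eval_X, eval_X, hxy, sub_self, zero_mul]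
  · have hmem : s 0 + s 1 ∈ T := hT (mem_tw.2 ⟨s 0, hs0.2, s 1, hs1, hxy, rfl⟩)
    rw [prod_eq_zero hmem, mul_zero]
    rw [map_sub, hS, map_add, eval_X, eval_X, eval_C, sub_self]

/-- **Erdős–Heilbronn for two summands** -/
theorem eh (B : Finset (ZMod p)) (hB : 2 ≤ #B) : min p (2 * #B - 3) ≤ #(tw B) := by
  classical
  have hpp : p.Prime := Fact.out
  have h2 := hpp.two_le
  by_cases h : 2 * #B ≤ p + 3
  · have h1 := eh_aux (B := B) (N := #B - 2) (by omega) (by omega)
    omega
  · push Not at h
    -- `p` is odd here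
    have hle : #B ≤ p := by
      have := card_le_univ B
      rwa [ZMod.card] at this
    obtain ⟨N, hN⟩ : ∃ N, p = 2 * N + 1 := by
      rcases hpp.eq_two_or_odd' with h3 | h3
      · omega
      · obtain ⟨N, hN⟩ := h3
        exact ⟨N, hN⟩
    obtain ⟨B', hB', hBc⟩ := exists_subset_card_eq (s := B) (n := N + 2) (by omega)
    have h1 := eh_aux (B := B') hBc (by omega)
    have h3 : tw B' ⊆ tw B := by
      intro x hx
      rw [mem_tw] at hx ⊢
      obtain ⟨a, ha, b, hb, hab, rfl⟩ := hx
      exact ⟨a, hB' ha, b, hB' hb, hab, rfl⟩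
    have h4 := card_le_card h3
    omega

end main

end Pool.Agent.Lib.MPa7239a.KP
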