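import Pool.Agent.Lib.MP_a7239a_co.KP.SS

/-!
# Lifting a type
-/

open scoped Pointwise
open Finset

namespace Pool.Agent.Lib.MPa7239a.KP

open Pool.Agent.Lib.MPa7239a.TP

variable {p : ℕ} [Fact p.Prime]

/-- the Cauchy–Davenport inequality for a finite family -/
theorem cd_family {ι : Type*} [DecidableEq ι] (X : ι → Finset (ZMod p)) (n : ι → ℕ)
    (hX : ∀ i, (X i).Nonempty) (hn : ∀ i, min p (n i + 1) ≤ #(X i)) (s : Finset ι) :
    ∃ S : Finset (ZMod p), S.Nonempty ∧ min p (∑ i ∈ s, n i + 1) ≤ #S ∧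
      ∀ x ∈ S, ∃ f : ι → ZMod p, (∀ i, f i ∈ X i) ∧ ∑ i ∈ s, f i = x := by
  classical
  have hpp : p.Prime := Fact.out
  induction s using Finset.induction_on with
  | empty =>
    refine ⟨{0}, singleton_nonempty 0, by simp, ?_⟩
    intro x hx
    rw [mem_singleton] at hx
    choose f hf using hX
    exact ⟨f, hf, by simp [hx]⟩
  | insert i s his ih =>
    obtain ⟨S, hS, hSc, hSf⟩ := ih
    refine ⟨X i + S, (hX i).add hS, ?_, ?_⟩
    · have h1 := ZMod.cauchy_davenport hpp (hX i) hS
      have h2 := hn i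
      have h3 := card_pos.2 hS
      have h4 := card_pos.2 (hX i)
      rw [sum_insert his]
      omega
    · intro x hx
      rw [Finset.mem_add] at hx
      obtain ⟨y, hy, z, hz, rfl⟩ := hx
      obtain ⟨f, hf, hfs⟩ := hSf z hz
      refine ⟨fun j => if j = i then y else f j, ?_, ?_⟩
      · intro j
        by_cases hj : j = i
        · subst hj
          simpa using hy
        · simpa [hj] using hf j
      · rw [sum_insert his, if_pos rfl, ← hfs]
        congr 1
        refine sum_congr rfl fun j hj => ?_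
        rw [if_neg]
        rintro rfl
        exact his hj

/-- **lifting** -/
theorem lift_k {A : Finset (ZMod p × ZMod p)} {c : ZMod p → ℕ}
    (hcn : ∀ v, c v ≤ #(A.filter (fun a => a.1 = v))) (hc : ∑ v, c v = p)
    (hcs : ∑ v, c v • v = 0)
    (hF : p ≤ ∑ v, F #(A.filter (fun a => a.1 = v)) (c v) + 1) :
    ∃ T ⊆ A, #T = p ∧ ∑ a ∈ T, a = 0 := by
  classical
  have hinj : ∀ v, Set.InjOn Prod.snd (A.filter (fun a => a.1 = v) : Set (ZMod p × ZMod p)) := by
    intro v a ha b hb hab
    rw [mem_coe, mem_filter] at ha hb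
    exact Prod.ext (ha.2.trans hb.2.symm) hab
  set B : ZMod p → Finset (ZMod p) := fun v => (A.filter (fun a => a.1 = v)).image Prod.snd with hB
  have hBc : ∀ v, #(B v) = #(A.filter (fun a => a.1 = v)) := fun v => card_image_of_injOn (hinj v)
  obtain ⟨S, _, hSc, hSf⟩ := cd_family (fun v => ss (c v) (B v)) (fun v => F #(B v) (c v))
    (fun v => ss_nonempty (by rw [hBc]; exact hcn v)) (fun v => ss_card (by rw [hBc]; exact hcn v))
    univ
  have hSu : S = univ := by
    apply eq_univ_of_card
    rw [ZMod.card]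
    apply le_antisymm
    · have := card_le_univ S
      rwa [ZMod.card] at this
    · refine le_trans ?_ hSc
      refine le_min le_rfl ?_
      refine hF.trans (le_of_eq ?_)
      rw [sum_congr rfl fun v _ => by rw [← hBc]]
  obtain ⟨f, hf, hfs⟩ := hSf 0 (by rw [hSu]; exact mem_univ 0)
  -- the sets of elements
  have hT : ∀ v, ∃ T ⊆ A.filter (fun a => a.1 = v), #T = c v ∧ ∑ a ∈ T, a.2 = f v := by
    intro v
    obtain ⟨T, hTB, hTc, hTs⟩ := mem_ss.1 (hf v)
    refine ⟨(A.filter (fun a => a.1 = v)).filter (fun a => a.2 ∈ T), filter_subset _ _, ?_, ?_⟩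
    · rw [← hTc, ← card_image_of_injOn ((hinj v).mono (by
        intro a ha
        exact (mem_filter.1 (mem_coe.1 ha)).1))]
      congr 1
      ext y
      rw [mem_image]
      constructor
      · rintro ⟨a, ha, rfl⟩
        exact (mem_filter.1 ha).2
      · intro hy
        obtain ⟨a, ha, hay⟩ := mem_image.1 (hTB hy)
        exact ⟨a, mem_filter.2 ⟨ha, by rw [hay]; exact hy⟩, hay⟩
    · rw [← hTs]
      apply sum_bij (fun a _ => a.2)
      · intro a ha
        exact (mem_filter.1 ha).2
      · intro a ha b hb hab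
        exact hinj v (mem_coe.2 (mem_filter.1 ha).1) (mem_coe.2 (mem_filter.1 hb).1) hab
      · intro y hy
        obtain ⟨a, ha, hay⟩ := mem_image.1 (hTB hy)
        exact ⟨a, mem_filter.2 ⟨ha, by rw [hay]; exact hy⟩, hay⟩
      · intro a _
        rfl
  choose T hTA hTc hTs using hT
  have hdis : ∀ u ∈ (univ : Finset (ZMod p)), ∀ v ∈ (univ : Finset (ZMod p)), u ≠ v →
      Disjoint (T u) (T v) := by
    intro u _ v _ huv
    rw [Finset.disjoint_left]
    intro a hau hav
    have h1 := (mem_filter.1 (hTA u hau)).2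
    have h2 := (mem_filter.1 (hTA v hav)).2
    exact huv (h1.symm.trans h2)
  refine ⟨univ.biUnion T, ?_, ?_, ?_⟩
  · intro a ha
    obtain ⟨v, _, hav⟩ := mem_biUnion.1 ha
    exact (mem_filter.1 (hTA v hav)).1
  · rw [card_biUnion hdis, sum_congr rfl fun v _ => hTc v, hc]
  · rw [sum_biUnion hdis]
    have h1 : ∀ v ∈ (univ : Finset (ZMod p)), ∑ a ∈ T v, a = (c v • v, f v) := by
      intro v _
      apply Prod.ext
      · rw [Prod.fst_sum, sum_congr rfl fun a ha => (mem_filter.1 (hTA v ha)).2, sum_const, hTc]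
      · rw [Prod.snd_sum, hTs]
    rw [sum_congr rfl h1]
    apply Prod.ext
    · rw [Prod.fst_sum]
      exact hcs
    · rw [Prod.snd_sum]
      exact hfs

end Pool.Agent.Lib.MPa7239a.KP
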