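import Pool.Agent.Lib.MP_a7239a_co.KP.W5

/-!
# Weights on `Z_p`: the classification

If no type lifts, then exactly one class is empty and no class has more than three elements.
-/

open scoped Pointwise
open Finset

set_option linter.unusedSectionVars false

namespace Pool.Agent.Lib.MPa7239a.KP

open Pool.Agent.Lib.MPa7239a.Q3
open Pool.Agent.Lib.MPa7239a.TP

variable {p : ℕ} [Fact p.Prime] {n : ZMod p → ℕ}

/-- the heavy classes -/
def hv (n : ZMod p → ℕ) : Finset (ZMod p) := univ.filter (fun v => v ≠ 0 ∧ n 0 + 2 ≤ 2 * n v)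

theorem mem_hv {v : ZMod p} : v ∈ hv n ↔ v ≠ 0 ∧ n 0 + 2 ≤ 2 * n v := by
  simp [hv]

/-- the nonempty classes -/
def ne (n : ZMod p → ℕ) : Finset (ZMod p) := univ.filter (fun v => n v ≠ 0)

theorem mem_ne {v : ZMod p} : v ∈ ne n ↔ n v ≠ 0 := by
  simp [ne]

theorem ne_card : #(ne n) + #(emp n) = p := by
  have h1 := card_filter_add_card_filter_not (s := (univ : Finset (ZMod p))) (fun v => n v = 0)
  rw [card_univ, ZMod.card] at h1
  rw [ne, emp, add_comm]
  exact h1

namespace Hyp

variable (H : Hyp p n)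

include H

theorem e_notMem : ∑ v ∈ emp n, v ∉ A1 n #(emp n) := by
  intro h
  obtain ⟨x, hx, -, h2, h3⟩ := mem_A1.1 h
  exact H.one hx h2 h3

theorem lower : ∑ v ∈ univ.erase (0 : ZMod p), min (n v - 1) #(emp n) ≤ #(A1 n #(emp n)) :=
  A1_card H.e_ne H.e_notMem

theorem total : ∑ v ∈ univ.erase (0 : ZMod p), (n v - 1) + n 0 = p + #(emp n) := by
  have h1 := sum_pred H.hn
  rw [← add_sum_erase _ _ (mem_univ (0 : ZMod p))] at h1
  have := H.hbig
  omega

theorem upper : #(A1 n #(emp n)) ≤ #(emp n) + #(hv n) := by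
  classical
  have hn0 : n 0 ≠ 0 := by
    have := H.hbig
    omega
  have h1 := A1_le (n := n) (r := #(emp n)) (e := ∑ v ∈ emp n, v) (S := ne n \ hv n) (by
    intro z hz
    rw [mem_sdiff, mem_ne, mem_hv] at hz
    intro h
    obtain ⟨x, hx, h1, h2, h3⟩ := mem_A1.1 h
    by_cases hz0 : z = 0
    · rw [hz0, add_zero] at h3
      exact H.one hx h2 h3
    · exact hz.2 ⟨hz0, H.two hx h1 h2 hz0 hz.1 h3⟩)
  have h2 := le_card_sdiff (hv n) (ne n)
  have h3 := ne_card (n := n)
  omega

theorem hv_min {v : ZMod p} (h : v ∈ hv n) : 2 ≤ min (n v - 1) #(emp n) := by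
  rw [mem_hv] at h
  have := H.hr
  have := H.hbig
  omega

/-- no class except `0` has more than `#(emp n)` elements -/
theorem caseII (hX : ∀ v, v ≠ 0 → n v ≤ #(emp n)) : False := by
  classical
  have hb := H.hbig
  have hlt := H.hlt
  have hr := H.hr
  have hp := H.hp
  have hpp : p.Prime := Fact.out
  have hpodd : p % 2 = 1 := hpp.eq_two_or_odd.resolve_left (by omega)
  have hlow := H.lower
  have htot := H.total
  have hup := H.upper
  have hmin : ∑ v ∈ univ.erase (0 : ZMod p), min (n v - 1) #(emp n) =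
      ∑ v ∈ univ.erase (0 : ZMod p), (n v - 1) := by
    apply sum_congr rfl
    intro v hv
    have := hX v (mem_erase.1 hv).1
    omega
  rw [hmin] at hlow
  -- at most two heavy classes
  have hsub : hv n ⊆ univ.erase (0 : ZMod p) := by
    intro v hv
    exact mem_erase.2 ⟨(mem_hv.1 hv).1, mem_univ _⟩
  have hH : #(hv n) * n 0 ≤ 2 * (p + #(emp n) - n 0) := by
    have h1 : ∑ v ∈ hv n, n 0 ≤ ∑ v ∈ hv n, 2 * (n v - 1) := by
      apply sum_le_sum
      intro v hv
      have := (mem_hv.1 hv).2
      omega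
    have h2 : ∑ v ∈ hv n, 2 * (n v - 1) ≤ ∑ v ∈ univ.erase (0 : ZMod p), 2 * (n v - 1) :=
      sum_le_sum_of_subset hsub
    rw [sum_const, smul_eq_mul] at h1
    rw [← mul_sum (univ.erase (0 : ZMod p))] at h2
    omega
  have hH2 : #(hv n) ≤ 2 := by
    by_contra hcon
    push Not at hcon
    have h1 : #(hv n) * (#(emp n) + 2) ≤ #(hv n) * n 0 := Nat.mul_le_mul_left _ hb
    have h2 : 3 * #(emp n) ≤ #(hv n) * #(emp n) := Nat.mul_le_mul_right _ hcon
    have h3 : #(hv n) * (#(emp n) + 2) = #(hv n) * #(emp n) + 2 * #(hv n) := by ring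
    omega
  -- so every class may be dropped
  have h1 := A1_le (n := n) (r := #(emp n)) (e := ∑ v ∈ emp n, v) (S := ne n) (by
    intro z hz
    rw [mem_ne] at hz
    intro h
    obtain ⟨x, hx, h1, h2, h3⟩ := mem_A1.1 h
    by_cases hz0 : z = 0
    · rw [hz0, add_zero] at h3
      exact H.one hx h2 h3
    · obtain ⟨h4, h5⟩ := type_two H.hp H.hn H.hbad hx hz0 (by omega)
        (k := #(emp n) + 2 - ∑ v, x v) (by omega) (by omega) (by omega) h3
      rcases Nat.lt_or_ge (#(emp n) + 2 - ∑ v, x v + 1) (n 0) with h6 | h6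
      · obtain ⟨h7, h8⟩ := F_mid (m := n 0) (k := #(emp n) + 2 - ∑ v, x v) (by omega) (by omega)
        omega
      · have h7 : #(emp n) + 2 - ∑ v, x v = n 0 - 1 := by omega
        rw [h7, F_pred (by omega)] at h5
        have := hX z hz0
        omega)
  have h2 := ne_card (n := n)
  omega

/-- some class `g` has more than `#(emp n)` elements -/
theorem caseI {g : ZMod p} (hg : g ≠ 0) (hgr : #(emp n) ≤ n g - 1) : False := by
  classical
  have hb := H.hbig
  have hr := H.hr
  have hlow := H.lower
  have hup := H.upper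
  have hgm : g ∈ univ.erase (0 : ZMod p) := mem_erase.2 ⟨hg, mem_univ _⟩
  rw [← add_sum_erase _ _ hgm, min_eq_right hgr] at hlow
  have hrest : ∑ v ∈ (univ.erase (0 : ZMod p)).erase g, min (n v - 1) #(emp n) ≤ #(hv n) := by
    omega
  have hle : ∀ v, v ≠ 0 → v ≠ g → min (n v - 1) #(emp n) ≤ #(hv n) := by
    intro v hv0 hvg
    refine le_trans ?_ hrest
    exact single_le_sum (f := fun v => min (n v - 1) #(emp n)) (fun _ _ => Nat.zero_le _)
      (mem_erase.2 ⟨hvg, mem_erase.2 ⟨hv0, mem_univ _⟩⟩)
  have hpair : ∀ v w, v ≠ 0 → v ≠ g → w ≠ 0 → w ≠ g → v ≠ w →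
      min (n v - 1) #(emp n) + min (n w - 1) #(emp n) ≤ #(hv n) := by
    intro v w hv0 hvg hw0 hwg hvw
    refine le_trans ?_ hrest
    rw [← sum_pair hvw (f := fun v => min (n v - 1) #(emp n))]
    apply sum_le_sum_of_subset
    intro u hu
    rw [mem_insert, mem_singleton] at hu
    rw [mem_erase, mem_erase]
    rcases hu with rfl | rfl
    · exact ⟨hvg, hv0, mem_univ _⟩
    · exact ⟨hwg, hw0, mem_univ _⟩
  have hcard : #(hv n) ≤ #((hv n).erase g) + 1 := by
    have := pred_card_le_card_erase (s := hv n) (a := g)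
    omega
  have h2H : 2 * #((hv n).erase g) ≤ #(hv n) := by
    refine le_trans ?_ hrest
    have h1 : #((hv n).erase g) • 2 ≤ ∑ v ∈ (hv n).erase g, min (n v - 1) #(emp n) := by
      apply card_nsmul_le_sum
      intro v hv
      exact H.hv_min (mem_erase.1 hv).2
    have h2 : ∑ v ∈ (hv n).erase g, min (n v - 1) #(emp n) ≤
        ∑ v ∈ (univ.erase (0 : ZMod p)).erase g, min (n v - 1) #(emp n) := by
      apply sum_le_sum_of_subset
      intro v hv
      rw [mem_erase, mem_hv] at hv
      exact mem_erase.2 ⟨hv.1, mem_erase.2 ⟨hv.2.1, mem_univ _⟩⟩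
    rw [smul_eq_mul] at h1
    omega
  by_cases hA : ∀ w, w ≠ 0 → w ≠ g → n w ≤ 1
  · exact H.caseA hg hgr hA
  push Not at hA
  obtain ⟨v, hv0, hvg, hv2⟩ := hA
  rcases Nat.lt_or_ge 0 #((hv n).erase g) with hH | hH
  · -- a second heavy class
    obtain ⟨g', hg'⟩ := card_pos.1 hH
    rw [mem_erase] at hg'
    have hm := H.hv_min hg'.2
    have hg'h := mem_hv.1 hg'.2
    have hX : ∀ w, w ≠ 0 → w ≠ g → w ≠ g' → n w ≤ 1 := by
      intro w hw0 hwg hwg'
      have := hpair w g' hw0 hwg hg'h.1 hg'.1 hwg'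
      omega
    have hm2 := hle g' hg'h.1 hg'.1
    have hr2 : #(emp n) = 2 := by omega
    by_cases h1 : g' = g + g
    · subst h1
      exact H.caseC1 hg hr2 (by omega) (by omega) hX
    by_cases h2 : g = g' + g'
    · subst h2
      exact H.caseC1 hg'h.1 hr2 (by omega) (by omega) (fun w a b c => hX w a c b)
    exact H.caseC2 hg hg'h.1 (Ne.symm hg'.1) hr2 (by omega) (by omega) hX h1 h2
  · -- no second heavy class
    have hm := hle v hv0 hvg
    refine H.caseB hg hgr hv0 (Ne.symm hvg) (by omega) ?_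
    intro w hw0 hwg hwv
    have := hpair w v hw0 hwg hv0 hvg hwv
    omega

theorem false : False := by
  by_cases h : ∀ v, v ≠ 0 → n v ≤ #(emp n)
  · exact H.caseII h
  · push Not at h
    obtain ⟨g, hg, hgr⟩ := h
    exact H.caseI hg (by omega)

end Hyp

/-- **weights** -/
theorem weights (hp : 5 ≤ p) (hn : ∑ v, n v + 1 = 2 * p) (hmax : ∀ v, n v < p)
    (hbad : BAD p n) : ∃ u, n u = 0 ∧ ∀ v, v ≠ u → 1 ≤ n v ∧ n v ≤ 3 := by
  classical
  rcases Nat.lt_or_ge #(emp n) 2 with hr | hr
  · rcases Nat.eq_zero_or_pos #(emp n) with h0 | hpos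
    · -- all classes are met
      exfalso
      have h1 : ∀ v, n v ≠ 0 := by
        intro v hv
        have : v ∈ emp n := mem_emp.2 hv
        rw [card_eq_zero.1 h0] at this
        exact absurd this (notMem_empty _)
      obtain ⟨v, hv, -⟩ := bad_one hn hbad (c := fun _ => 1) (fun v => by
        have := h1 v
        show 1 ≤ n v
        omega) (by
        rw [sum_const, card_univ, ZMod.card, smul_eq_mul, mul_one]) (by
        simp only [one_nsmul]
        exact sum_all hp)
      exact absurd hv (by norm_num)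
    · -- exactly one empty class
      obtain ⟨u, hu⟩ := card_eq_one.1 (show #(emp n) = 1 by omega)
      have hnu : n u = 0 := by
        rw [← mem_emp, hu]
        exact mem_singleton_self _
      have h1 : ∀ v, v ≠ u → 1 ≤ n v := by
        intro v hv
        by_contra hcon
        apply hv
        have : v ∈ emp n := mem_emp.2 (by omega)
        rw [hu, mem_singleton] at this
        exact this
      refine ⟨u, hnu, fun v hv => ⟨h1 v hv, ?_⟩⟩
      have h2 := one_empty (n := fun v => n (u + v)) hp (by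
        rw [← hn]
        congr 1
        exact Fintype.sum_equiv (Equiv.addLeft u) _ _ (fun w => rfl)) (bad_translate hbad u) (by
        show n (u + 0) = 0
        rw [add_zero, hnu]) (by
        intro w hw
        show 1 ≤ n (u + w)
        exact h1 _ (by simpa using hw)) (v - u)
      have h3 : n (u + (v - u)) ≤ 3 := h2
      rwa [add_sub_cancel] at h3
  · -- at least two empty classes
    exfalso
    obtain ⟨m, -, hm⟩ := exists_max_image univ n ⟨(0 : ZMod p), mem_univ _⟩
    have hE : #(emp (fun v => n (m + v))) = #(emp n) := by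
      have h1 : (emp (fun v => n (m + v))).image (fun v => m + v) = emp n := by
        ext v
        rw [mem_image, mem_emp]
        constructor
        · rintro ⟨w, hw, rfl⟩
          exact (mem_emp (n := fun v => n (m + v))).1 hw
        · intro hv
          refine ⟨v - m, ?_, by ring⟩
          rw [mem_emp]
          show n (m + (v - m)) = 0
          rwa [add_sub_cancel]
      rw [← h1, card_image_of_injective _ (add_right_injective m)]
    have hn' : ∑ v, n (m + v) + 1 = 2 * p := by
      rw [← hn]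
      congr 1
      exact Fintype.sum_equiv (Equiv.addLeft m) _ _ (fun w => rfl)
    have hmax' : ∀ v, (fun v => n (m + v)) v ≤ (fun v => n (m + v)) 0 := by
      intro v
      show n (m + v) ≤ n (m + 0)
      rw [add_zero]
      exact hm _ (mem_univ _)
    rcases Nat.lt_or_ge (#(emp n) + 1) (n m) with h | h
    · refine Hyp.false (n := fun v => n (m + v)) ⟨hp, hn', bad_translate hbad m, hmax _, hmax',
        by rw [hE]; exact hr, ?_⟩
      rw [hE]
      show #(emp n) + 2 ≤ n (m + 0)
      rw [add_zero]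
      omega
    · refine small_max (n := fun v => n (m + v)) hp hn' (bad_translate hbad m) hmax' ?_
      rw [hE]
      show n (m + 0) ≤ #(emp n) + 1
      rw [add_zero]
      exact h

end Pool.Agent.Lib.MPa7239a.KP
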