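import Pool.Agent.Lib.MP_a7239a_co.KP.Count
import Pool.Agent.Lib.MP_a7239a_co.KP.LiftK
import Pool.Agent.Lib.MP_a7239a_co.KP.W6

/-!
# `Z_p × Z_p`, all primes `p ≥ 11`
-/

open Finset

namespace Pool.Agent.Lib.MPa7239a.KP

/-- the exact value for `Z_p × Z_p` -/
theorem exactK {p : ℕ} (hpp : p.Prime) (hp : 11 ≤ p) :
    sSup {k | ∃ A : Finset (ZMod p × ZMod p), #A = k ∧ ∀ T ⊆ A, #T = p → ∑ x ∈ T, x ≠ 0} =
      2 * p - 2 := by
  have : Fact p.Prime := ⟨hpp⟩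
  exact exactK_of hp (fun n hn hmax hbad => weights (by omega) hn hmax hbad)
    (fun A c hcn hc hcs hF => lift_k hcn hc hcs hF)

end Pool.Agent.Lib.MPa7239a.KP
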