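import Pool.Agent.Lib.MP_a7239a_co.KP.Defs
import Pool.Agent.Lib.MP_a7239a_co.KP.EH

/-!
# The number of sums of `c` distinct elements of a set in `ZMod p`
-/

open scoped Pointwise
open Finset

namespace Pool.Agent.Lib.MPa7239a.KP

open Pool.Agent.Lib.MPa7239a.TP

variable {p : ℕ}

theorem mem_ss {c : ℕ} {B : Finset (ZMod p)} {x : ZMod p} :
    x ∈ ss c B ↔ ∃ T ⊆ B, #T = c ∧ ∑ a ∈ T, a = x := by
  rw [ss, mem_image]
  constructor
  · rintro ⟨T, hT, hx⟩
    rw [mem_powersetCard] at hT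
    exact ⟨T, hT.1, hT.2, hx⟩
  · rintro ⟨T, hT, hTc, hx⟩
    exact ⟨T, mem_powersetCard.2 ⟨hT, hTc⟩, hx⟩

theorem ss_nonempty {c : ℕ} {B : Finset (ZMod p)} (hc : c ≤ #B) : (ss c B).Nonempty := by
  obtain ⟨T, hT, hTc⟩ := exists_subset_card_eq hc
  exact ⟨_, mem_ss.2 ⟨T, hT, hTc, rfl⟩⟩

/-- complements -/
theorem ss_compl {c : ℕ} {B : Finset (ZMod p)} (hc : c ≤ #B) :
    #(ss (#B - c) B) ≤ #(ss c B) := by
  apply card_le_card_of_injOn (fun x => ∑ a ∈ B, a - x)
  · intro x hx
    obtain ⟨T, hT, hTc, rfl⟩ := mem_ss.1 (mem_coe.1 hx)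
    refine mem_coe.2 (mem_ss.2 ⟨B \ T, sdiff_subset, ?_, ?_⟩)
    · rw [card_sdiff_of_subset hT]
      omega
    · rw [← sum_sdiff hT]
      ring
  · intro x _ y _ h
    have h' : ∑ a ∈ B, a - x = ∑ a ∈ B, a - y := h
    linear_combination -h'

variable [Fact p.Prime]

theorem ss_two_le {c : ℕ} {B : Finset (ZMod p)} (h2 : 2 ≤ c) (hc : c ≤ #B) :
    min p (2 * (#B - c) + 1) ≤ #(ss c B) := by
  classical
  obtain ⟨T, hT, hTc⟩ := exists_subset_card_eq (s := B) (n := c - 2) (by omega)
  have hB' : #(B \ T) = #B - c + 2 := by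
    rw [card_sdiff_of_subset hT]
    omega
  have h1 := eh (B \ T) (by omega)
  rw [hB', show 2 * (#B - c + 2) - 3 = 2 * (#B - c) + 1 by omega] at h1
  refine le_trans h1 ?_
  apply card_le_card_of_injOn (fun x => ∑ a ∈ T, a + x)
  · intro x hx
    obtain ⟨a, ha, b, hb, hab, rfl⟩ := mem_tw.1 (mem_coe.1 hx)
    rw [mem_sdiff] at ha hb
    refine mem_coe.2 (mem_ss.2 ⟨T ∪ {a, b}, ?_, ?_, ?_⟩)
    · intro y hy
      rw [mem_union, mem_insert, mem_singleton] at hy
      rcases hy with hy | rfl | rfl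
      · exact hT hy
      · exact ha.1
      · exact hb.1
    · rw [card_union_of_disjoint, card_pair hab, hTc]
      · omega
      · rw [disjoint_insert_right, disjoint_singleton_right]
        exact ⟨ha.2, hb.2⟩
    · rw [sum_union, sum_pair hab]
      rw [disjoint_insert_right, disjoint_singleton_right]
      exact ⟨ha.2, hb.2⟩
  · intro x _ y _ h
    exact add_left_cancel (h : ∑ a ∈ T, a + x = ∑ a ∈ T, a + y)

theorem ss_one {B : Finset (ZMod p)} : #B ≤ #(ss 1 B) := by
  apply card_le_card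
  intro x hx
  exact mem_ss.2 ⟨{x}, by simpa using hx, card_singleton x, sum_singleton _ _⟩

/-- **sums of `c` distinct elements** -/
theorem ss_card {c : ℕ} {B : Finset (ZMod p)} (hc : c ≤ #B) :
    min p (F #B c + 1) ≤ #(ss c B) := by
  rw [F]
  split_ifs with h1 h2
  · have := card_pos.2 (ss_nonempty hc)
    omega
  · push Not at h1
    rcases h2 with h2 | h2
    · subst h2
      have := ss_one (B := B)
      omega
    · have h3 := ss_compl (B := B) (c := c) hc
      rw [show #B - c = 1 by omega] at h3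
      have := ss_one (B := B)
      omega
  · push Not at h1 h2
    have h3 := ss_two_le (B := B) (c := c) (by omega) hc
    have h4 := ss_two_le (B := B) (c := #B - c) (by omega) (by omega)
    have h5 := ss_compl (B := B) (c := c) hc
    rw [show #B - (#B - c) = c by omega] at h4
    omega

end Pool.Agent.Lib.MPa7239a.KP
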