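import Pool.Agent.Lib.MP_a7239a_co.KP.Defs

/-!
# Weights on `Z_p`: tools

Bounds for `F`, the consequences of `BAD`, selections from threshold sets.
-/

open scoped Pointwise
open Finset

set_option linter.unusedSectionVars false

namespace Pool.Agent.Lib.MPa7239a.KP

open Pool.Agent.Lib.MPa7239a.Q3
open Pool.Agent.Lib.MPa7239a.TP

theorem F_small {a c : ℕ} (h : c = 0 ∨ a ≤ c) : F a c = 0 := by
  unfold F
  rw [if_pos h]

theorem F_edge {a c : ℕ} (h : 0 < c) (h' : c < a) (h2 : c = 1 ∨ c + 1 = a) : F a c = a - 1 := by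
  unfold F
  rw [if_neg (by omega), if_pos h2]

theorem F_inner {a c : ℕ} (h : 2 ≤ c) (h' : c + 2 ≤ a) : F a c = 2 * max c (a - c) := by
  unfold F
  rw [if_neg (by omega), if_neg (by omega)]

theorem F_one (a : ℕ) : F a 1 = a - 1 := by
  rcases Nat.lt_or_ge 1 a with h | h
  · exact F_edge (by omega) h (Or.inl rfl)
  · rw [F_small (Or.inr h)]
    omega

theorem F_ge {a c : ℕ} (hc : 1 ≤ c) : a - c ≤ F a c := by
  rcases Nat.lt_or_ge c a with h | h
  · by_cases h2 : c = 1 ∨ c + 1 = a
    · rw [F_edge (by omega) h h2]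
      omega
    · rw [F_inner (by omega) (by omega)]
      have := le_max_right c (a - c)
      omega
  · omega

theorem F_two {a : ℕ} : 2 * a ≤ F a 2 + 4 := by
  rcases Nat.lt_or_ge 2 a with h | h
  · by_cases h2 : 2 + 1 = a
    · rw [F_edge (by omega) h (Or.inr h2)]
      omega
    · rw [F_inner (by omega) (by omega)]
      have := le_max_right 2 (a - 2)
      omega
  · omega

theorem F_three {a : ℕ} (ha : 4 ≤ a) : a ≤ F a 3 + 1 := by
  by_cases h2 : 3 + 1 = a
  · rw [F_edge (by omega) (by omega) (Or.inr h2)]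
    omega
  · rw [F_inner (by omega) (by omega)]
    have := le_max_right 3 (a - 3)
    have := le_max_left 3 (a - 3)
    omega

theorem F_gain {m k : ℕ} (hk : 2 ≤ k) (hkm : k + 1 ≤ m) (hm : 4 ≤ m) :
    2 * (m - k) + m ≤ 2 * F m k := by
  by_cases h2 : k + 1 = m
  · rw [F_edge (by omega) (by omega) (Or.inr h2)]
    omega
  · rw [F_inner (by omega) (by omega)]
    have := le_max_right k (m - k)
    have := le_max_left k (m - k)
    omega

theorem F_pred {m : ℕ} (hm : 2 ≤ m) : F m (m - 1) = m - 1 := by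
  rw [F_edge (by omega) (by omega) (Or.inr (by omega))]

theorem F_mid {m k : ℕ} (hk : 2 ≤ k) (hkm : k + 2 ≤ m) : m ≤ F m k ∧ F m k % 2 = 0 := by
  rw [F_inner (by omega) (by omega)]
  have := le_max_right k (m - k)
  have := le_max_left k (m - k)
  omega

section tools

variable {p : ℕ} [Fact p.Prime] {n : ZMod p → ℕ}

/-- consequence of `BAD`: some class is dropped -/
theorem bad_one (hn : ∑ v, n v + 1 = 2 * p) (hbad : BAD p n) {c : ZMod p → ℕ}
    (hcn : ∀ v, c v ≤ n v) (hc : ∑ v, c v = p) (hcs : ∑ v, c v • v = 0) :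
    ∃ v, c v = 0 ∧ n v ≠ 0 := by
  by_contra hcon
  push Not at hcon
  have h1 := hbad c hcn hc hcs
  have h2 : ∑ v, (n v - c v) ≤ ∑ v, F (n v) (c v) := by
    apply sum_le_sum
    intro v _
    by_cases hv : c v = 0
    · rw [hcon v hv]
      omega
    · exact F_ge (by omega)
  have h3 : ∑ v, (n v - c v) + ∑ v, c v = ∑ v, n v := by
    rw [← sum_add_distrib]
    exact sum_congr rfl fun v _ => Nat.sub_add_cancel (hcn v)
  omega

/-- consequence of `BAD` when at most the class `z` is dropped; `w` is a class with `c w ≥ 1` -/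
theorem bad_two (hn : ∑ v, n v + 1 = 2 * p) (hbad : BAD p n) {c : ZMod p → ℕ}
    (hcn : ∀ v, c v ≤ n v) (hc : ∑ v, c v = p) (hcs : ∑ v, c v • v = 0) {z : ZMod p}
    (hz : ∀ v, c v = 0 → n v = 0 ∨ v = z) {W : Finset (ZMod p)} (hW : ∀ w ∈ W, c w ≠ 0) :
    ∑ w ∈ W, F (n w) (c w) + 1 ≤ n z + ∑ w ∈ W, (n w - c w) := by
  classical
  have h1 := hbad c hcn hc hcs
  have h2 : ∀ v, (n v - c v) + (if v ∈ W then F (n v) (c v) else 0) ≤
      F (n v) (c v) + (if v ∈ W then n v - c v else 0) + (if v = z then n v else 0) := by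
    intro v
    by_cases hv : c v = 0
    · have hvW : v ∉ W := fun h => hW v h hv
      rw [if_neg hvW, if_neg hvW]
      rcases hz v hv with h | h
      · rw [h]
        omega
      · rw [if_pos h]
        omega
    · have h3 := F_ge (a := n v) (c := c v) (by omega)
      by_cases hvW : v ∈ W
      · rw [if_pos hvW, if_pos hvW]
        omega
      · rw [if_neg hvW, if_neg hvW]
        omega
  have h3 := sum_le_sum fun v (_ : v ∈ (univ : Finset (ZMod p))) => h2 v
  rw [sum_add_distrib, sum_add_distrib, sum_add_distrib, sum_ite_eq' univ z, if_pos (mem_univ _),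
    ← sum_filter, ← sum_filter, filter_mem_eq_inter, univ_inter] at h3
  have h4 : ∑ v, (n v - c v) + ∑ v, c v = ∑ v, n v := by
    rw [← sum_add_distrib]
    exact sum_congr rfl fun v _ => Nat.sub_add_cancel (hcn v)
  omega

/-- translation -/
theorem bad_translate (hbad : BAD p n) (t : ZMod p) : BAD p (fun v => n (t + v)) := by
  intro c hcn hc hcs
  have h1 := hbad (fun w => c (w - t)) (by
    intro w
    have h4 : c (w - t) ≤ n (t + (w - t)) := hcn (w - t)
    rwa [add_sub_cancel] at h4) (by
    refine Eq.trans ?_ hc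
    exact Fintype.sum_equiv (Equiv.subRight t) _ _ (fun w => rfl)) (by
    have h2 : ∑ w, c (w - t) • w = ∑ w, c w • (w + t) := by
      apply Fintype.sum_equiv (Equiv.subRight t)
      intro w
      show c (w - t) • w = c (w - t) • (w - t + t)
      rw [sub_add_cancel]
    rw [h2]
    simp_rw [nsmul_add]
    rw [sum_add_distrib, hcs, zero_add, ← sum_smul, hc, nsmul_eq_mul, ZMod.natCast_self,
      zero_mul])
  have h3 : ∑ w, F (n w) (c (w - t)) = ∑ w, F (n (t + w)) (c w) := by
    apply Fintype.sum_equiv (Equiv.subRight t)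
    intro w
    show F (n w) (c (w - t)) = F (n (t + (w - t))) (c (w - t))
    rw [add_sub_cancel]
  rw [h3] at h1
  exact h1

/-- selections from threshold sets -/
theorem sel_levels (a : ZMod p → ℕ) : ∀ (m : ℕ) (y : ZMod p), y ∈ (thrs a m).sum →
    ∃ x : ZMod p → ℕ, (∀ v, x v ≤ a v) ∧ (∀ v, x v ≤ m) ∧ ∑ v, x v = m ∧ ∑ v, x v • v = y := by
  intro m
  induction m with
  | zero =>
    intro y hy
    have h0 : (thrs a 0).sum = 0 := rfl
    rw [h0, Finset.mem_zero] at hy
    exact ⟨fun _ => 0, by simp, by simp, by simp, by simp [hy]⟩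
  | succ m ih =>
    intro y hy
    have h0 : thrs a (m + 1) = thrs a m ++ [thr a (m + 1)] := by
      rw [thrs, thrs, List.range_succ, List.map_append]
      rfl
    rw [h0, List.sum_append, List.sum_singleton, Finset.mem_add] at hy
    obtain ⟨s, hs', q, hq, rfl⟩ := hy
    obtain ⟨x, hx1, hx2, hx3, hx4⟩ := ih s hs'
    rw [mem_thr] at hq
    refine ⟨fun v => x v + if v = q then 1 else 0, ?_, ?_, ?_, ?_⟩
    · intro v
      show x v + (if v = q then 1 else 0) ≤ a v
      by_cases hv : v = q
      · rw [if_pos hv]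
        have := hx2 v
        rw [← hv] at hq
        omega
      · rw [if_neg hv]
        exact hx1 v
    · intro v
      show x v + (if v = q then 1 else 0) ≤ m + 1
      have := hx2 v
      split <;> omega
    · rw [sum_add_distrib, hx3, sum_ite_eq' univ q, if_pos (mem_univ _)]
    · simp only [add_nsmul]
      rw [sum_add_distrib, hx4]
      congr 1
      simp

/-- Cauchy-Davenport for threshold sets -/
theorem card_levels (a : ZMod p → ℕ) (m : ℕ) {w : ZMod p} (hw : m ≤ a w) :
    min p (∑ v, min (a v) m + 1 - m) ≤ #(thrs a m).sum := by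
  have hpp : p.Prime := Fact.out
  have hne : ∀ X ∈ thrs a m, X.Nonempty := by
    intro X hX
    obtain ⟨i, hi, rfl⟩ := mem_thrs hX
    exact ⟨w, mem_thr.2 (by omega)⟩
  have h1 := (cd_list hpp (ZMod.card p) (thrs a m) hne).2
  have h2 : ((thrs a m).map (fun X => #X - 1)).sum + m = ∑ v, min (a v) m := by
    have h3 : ∑ v, min (a v) m = ((thrs a m).map (fun X => #X)).sum := by
      rw [sum_thrs]
      have h4 : ∀ v, min (a v) m = ∑ i ∈ range m, if i + 1 ≤ a v then 1 else 0 := by
        intro v
        rw [← card_filter]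
        have : (range m).filter (fun i => i + 1 ≤ a v) = range (min (a v) m) := by
          ext i
          rw [mem_filter, mem_range, mem_range]
          omega
        rw [this, card_range]
      simp_rw [h4]
      rw [sum_comm]
      apply sum_congr rfl
      intro i _
      rw [thr, card_filter]
    rw [h3, sum_thrs, sum_thrs]
    have h6 : ∀ i ∈ range m, (#(thr a (i + 1)) - 1) + 1 = #(thr a (i + 1)) := by
      intro i hi
      rw [mem_range] at hi
      have : 0 < #(thr a (i + 1)) := card_pos.2 ⟨w, mem_thr.2 (by omega)⟩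
      omega
    rw [← sum_congr rfl h6, sum_add_distrib, sum_const, card_range, smul_eq_mul, mul_one]
  have h3 : (∑ v, min (a v) m) + 1 - m = ((thrs a m).map (fun X => #X - 1)).sum + 1 := by omega
  rw [h3]
  exact h1

end tools

end Pool.Agent.Lib.MPa7239a.KP
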