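import Pool.Agent.Lib.MP_a7239a_co.KP.W1

/-!
# Weights on `Z_p` with exactly one empty class
-/

open scoped Pointwise
open Finset

set_option linter.unusedSectionVars false

namespace Pool.Agent.Lib.MPa7239a.KP

open Pool.Agent.Lib.MPa7239a.Q3
open Pool.Agent.Lib.MPa7239a.TP

variable {p : ℕ} [Fact p.Prime] {n : ZMod p → ℕ}

/-- the type: once everywhere except `0` and `v₀`, and one more for `e₁` and for `e₂` -/
def ty (v₀ e₁ e₂ : ZMod p) (v : ZMod p) : ℕ :=
  (if v = 0 then 0 else if v = v₀ then 0 else 1) + (if v = e₁ then 1 else 0) +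
    (if v = e₂ then 1 else 0)

theorem ty_sum (hp : 5 ≤ p) {v₀ e₁ e₂ : ZMod p} (hv : v₀ ≠ 0) : ∑ v, ty v₀ e₁ e₂ v = p := by
  have hcst : ∀ v : ZMod p, ((if v = 0 then 0 else if v = v₀ then 0 else 1) : ℕ) +
      (if v = 0 then 1 else 0) + (if v = v₀ then 1 else 0) = 1 := by
    intro v
    by_cases hv0 : v = 0
    · rw [if_pos hv0, if_pos hv0, if_neg]
      rw [hv0]
      exact hv.symm
    · rw [if_neg hv0, if_neg hv0]
      by_cases hv1 : v = v₀
      · rw [if_pos hv1, if_pos hv1]
      · rw [if_neg hv1, if_neg hv1]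
  have hcard : ∑ v : ZMod p, ((if v = 0 then 0 else if v = v₀ then 0 else 1) : ℕ) = p - 2 := by
    have h3 := sum_congr (rfl : (univ : Finset (ZMod p)) = univ) (fun v _ => hcst v)
    rw [sum_add_distrib, sum_add_distrib] at h3
    simp only [sum_ite_eq', mem_univ, if_true, sum_const, card_univ, ZMod.card, smul_eq_mul,
      mul_one] at h3
    omega
  unfold ty
  rw [sum_add_distrib, sum_add_distrib, hcard]
  simp only [sum_ite_eq', mem_univ, if_true]
  omega

theorem ty_smul (hp : 5 ≤ p) {v₀ e₁ e₂ : ZMod p} (he : e₁ + e₂ = v₀) :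
    ∑ v, ty v₀ e₁ e₂ v • v = 0 := by
  have h3 : ∀ v, ty v₀ e₁ e₂ v • v = v - (if v = v₀ then v else 0) +
      (if v = e₁ then v else 0) + (if v = e₂ then v else 0) := by
    intro v
    unfold ty
    simp only [add_nsmul, ite_smul, one_nsmul, zero_nsmul]
    congr 2
    by_cases hv0 : v = 0
    · rw [if_pos hv0, hv0]
      simp
    · rw [if_neg hv0]
      by_cases hv1 : v = v₀
      · rw [if_pos hv1, if_pos hv1, sub_self]
      · rw [if_neg hv1, if_neg hv1, sub_zero]
  simp_rw [h3]
  rw [sum_add_distrib, sum_add_distrib, sum_sub_distrib, sum_all hp]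
  simp only [sum_ite_eq', mem_univ, if_true]
  rw [← he]
  ring

theorem ty_pos {v₀ e₁ e₂ v : ZMod p} (h : ty v₀ e₁ e₂ v = 0) : v = 0 ∨ v = v₀ := by
  by_contra hcon
  rw [not_or] at hcon
  unfold ty at h
  rw [if_neg hcon.1, if_neg hcon.2] at h
  omega

/-- two classes doubled -/
theorem pair_k (hp : 5 ≤ p) (hn : ∑ v, n v + 1 = 2 * p) (hbad : BAD p n) (hn0 : n 0 = 0)
    (hn1 : ∀ v, v ≠ 0 → 1 ≤ n v) {e₁ e₂ : ZMod p} (h1 : e₁ ≠ 0) (h2 : e₂ ≠ 0) (h12 : e₁ ≠ e₂)
    (hv : e₁ + e₂ ≠ 0) (hn1' : 2 ≤ n e₁) (hn2' : 2 ≤ n e₂) : n e₁ + n e₂ ≤ n (e₁ + e₂) + 3 := by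
  classical
  have h1v : e₁ ≠ e₁ + e₂ := by
    intro h
    exact h2 (by simpa using h.symm)
  have h2v : e₂ ≠ e₁ + e₂ := by
    intro h
    exact h1 (by simpa using h.symm)
  have hc1 : ty (e₁ + e₂) e₁ e₂ e₁ = 2 := by
    unfold ty
    rw [if_neg h1, if_neg h1v, if_pos rfl, if_neg h12]
  have hc2 : ty (e₁ + e₂) e₁ e₂ e₂ = 2 := by
    unfold ty
    rw [if_neg h2, if_neg h2v, if_pos rfl, if_neg (Ne.symm h12)]
  have h := bad_two hn hbad (c := ty (e₁ + e₂) e₁ e₂) (z := e₁ + e₂) (W := {e₁, e₂}) (by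
    intro v
    by_cases hv1 : v = e₁
    · rw [hv1, hc1]
      exact hn1'
    by_cases hv2 : v = e₂
    · rw [hv2, hc2]
      exact hn2'
    unfold ty
    rw [if_neg hv1, if_neg hv2]
    by_cases hv0 : v = 0
    · rw [if_pos hv0]
      omega
    · rw [if_neg hv0]
      have := hn1 v hv0
      split <;> omega) (ty_sum hp hv) (ty_smul hp rfl) (by
    intro v hv'
    rcases ty_pos hv' with h | h
    · left
      rw [h, hn0]
    · right
      exact h) (by
    intro w hw
    rw [mem_insert, mem_singleton] at hw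
    rcases hw with rfl | rfl
    · rw [hc1]
      omega
    · rw [hc2]
      omega)
  rw [sum_pair h12, sum_pair h12, hc1, hc2] at h
  have h3 := F_two (a := n e₁)
  have h4 := F_two (a := n e₂)
  omega

/-- one class tripled -/
theorem triple_k (hp : 5 ≤ p) (hn : ∑ v, n v + 1 = 2 * p) (hbad : BAD p n) (hn0 : n 0 = 0)
    (hn1 : ∀ v, v ≠ 0 → 1 ≤ n v) {e : ZMod p} (h1 : e ≠ 0) (hne : 4 ≤ n e) : 2 ≤ n (e + e) := by
  classical
  have hv : e + e ≠ 0 := by
    intro h
    have : (2 : ZMod p) * e = 0 := by rw [two_mul]; exact h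
    rcases mul_eq_zero.1 this with h | h
    · exact two_ne hp h
    · exact h1 h
  have h1v : e ≠ e + e := by
    intro h
    exact h1 (by simpa using h.symm)
  have hc1 : ty (e + e) e e e = 3 := by
    unfold ty
    rw [if_neg h1, if_neg h1v, if_pos rfl]
  have h := bad_two hn hbad (c := ty (e + e) e e) (z := e + e) (W := {e}) (by
    intro v
    by_cases hv1 : v = e
    · rw [hv1, hc1]
      omega
    unfold ty
    rw [if_neg hv1]
    by_cases hv0 : v = 0
    · rw [if_pos hv0]
      omega
    · rw [if_neg hv0]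
      have := hn1 v hv0
      split <;> omega) (ty_sum hp hv) (ty_smul hp rfl) (by
    intro v hv'
    rcases ty_pos hv' with h | h
    · left
      rw [h, hn0]
    · right
      exact h) (by
    intro w hw
    rw [mem_singleton] at hw
    rw [hw, hc1]
    omega)
  rw [sum_singleton, sum_singleton, hc1] at h
  have h3 := F_three hne
  omega

/-- **exactly one empty class** -/
theorem one_empty (hp : 5 ≤ p) (hn : ∑ v, n v + 1 = 2 * p) (hbad : BAD p n) (hn0 : n 0 = 0)
    (hn1 : ∀ v, v ≠ 0 → 1 ≤ n v) (f : ZMod p) : n f ≤ 3 := by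
  classical
  have hpp : p.Prime := Fact.out
  by_contra hcon
  push Not at hcon
  have hf : f ≠ 0 := by
    rintro rfl
    omega
  have key : ∀ i : ℕ, 2 ≤ i → i < p → 2 ≤ n (i • f) := by
    intro i
    induction i with
    | zero => intro h; omega
    | succ i ih =>
      intro hi hip
      rcases Nat.lt_or_ge i 2 with h | h
      · have : i = 1 := by omega
        rw [this, show (1 + 1) • f = f + f from two_nsmul f]
        exact triple_k hp hn hbad hn0 hn1 hf (by omega)
      · have h2 := ih h (by omega)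
        have hcast : ∀ j : ℕ, 0 < j → j < p → j • f ≠ 0 := by
          intro j hj hjp h0
          rw [nsmul_eq_mul] at h0
          rcases mul_eq_zero.1 h0 with h3 | h3
          · rw [ZMod.natCast_eq_zero_iff] at h3
            have := Nat.le_of_dvd hj h3
            omega
          · exact hf h3
        have h4 : f ≠ i • f := by
          intro h5
          apply hcast (i - 1) (by omega) (by omega)
          have h6 : (i - 1) • f + f = i • f := by
            rw [← succ_nsmul, Nat.sub_add_cancel (by omega)]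
          have h7 : (i - 1) • f + f = 0 + f := by rw [h6, zero_add, ← h5]
          exact add_right_cancel h7
        have h5 := pair_k hp hn hbad hn0 hn1 hf (hcast i (by omega) (by omega)) h4 (by
          rw [add_comm, ← succ_nsmul]
          exact hcast (i + 1) (by omega) hip) (by omega) h2
        rw [add_comm f, ← succ_nsmul] at h5
        omega
  have hall : ∀ v, v ≠ 0 → v ≠ f → 2 ≤ n v := by
    intro v hv hvf
    have h1 : ((v / f).val : ZMod p) = v / f := ZMod.natCast_zmod_val _
    have h2 : (v / f).val • f = v := by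
      rw [nsmul_eq_mul, h1, div_mul_cancel₀ _ hf]
    have h3 : (v / f).val < p := ZMod.val_lt _
    have h4 : 2 ≤ (v / f).val := by
      by_contra hcon2
      have h5 : (v / f).val = 0 ∨ (v / f).val = 1 := by omega
      rcases h5 with h5 | h5
      · rw [h5, zero_nsmul] at h2
        exact hv h2.symm
      · rw [h5, one_nsmul] at h2
        exact hvf h2.symm
    have := key _ h4 h3
    rwa [h2] at this
  -- the sum is too large
  have h0m : (0 : ZMod p) ∈ (univ : Finset (ZMod p)) := mem_univ _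
  have hfm : f ∈ univ.erase (0 : ZMod p) := mem_erase.2 ⟨hf, mem_univ _⟩
  rw [← add_sum_erase _ _ h0m, ← add_sum_erase _ _ hfm, hn0] at hn
  have h1 : #((univ.erase (0 : ZMod p)).erase f) • 2 ≤
      ∑ v ∈ (univ.erase (0 : ZMod p)).erase f, n v := by
    apply card_nsmul_le_sum
    intro v hv
    rw [mem_erase, mem_erase] at hv
    exact hall v hv.2.1 hv.1
  rw [card_erase_of_mem hfm, card_erase_of_mem h0m, card_univ, ZMod.card, smul_eq_mul] at h1
  omega

end Pool.Agent.Lib.MPa7239a.KP
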