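import Pool.Agent.Lib.MP_a7239a_co.KP.W2

/-!
# Weights on `Z_p` with at least two empty classes: types
-/

open scoped Pointwise
open Finset

set_option linter.unusedSectionVars false

namespace Pool.Agent.Lib.MPa7239a.KP

open Pool.Agent.Lib.MPa7239a.Q3
open Pool.Agent.Lib.MPa7239a.TP

variable {p : ℕ} [Fact p.Prime] {n : ZMod p → ℕ}

/-- the empty classes -/
def emp (n : ZMod p → ℕ) : Finset (ZMod p) := univ.filter (fun v => n v = 0)

theorem mem_emp {v : ZMod p} : v ∈ emp n ↔ n v = 0 := by
  simp [emp]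

theorem one_sum : (∑ v, if n v = 0 then 0 else 1) + #(emp n) = p := by
  have h1 : ∀ v : ZMod p, (if n v = 0 then 0 else 1) + (if n v = 0 then 1 else 0) = 1 := by
    intro v
    split <;> rfl
  have h3 := sum_congr (rfl : (univ : Finset (ZMod p)) = univ) (fun v _ => h1 v)
  rw [sum_add_distrib, ← card_filter, sum_const, card_univ, ZMod.card, smul_eq_mul,
    mul_one] at h3
  exact h3

theorem one_smul_sum (hp : 5 ≤ p) :
    (∑ v : ZMod p, (if n v = 0 then 0 else 1) • v) + ∑ v ∈ emp n, v = 0 := by
  rw [emp, sum_filter, ← sum_add_distrib]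
  refine Eq.trans ?_ (sum_all hp)
  apply sum_congr rfl
  intro v _
  by_cases h : n v = 0
  · rw [if_pos h, if_pos h, zero_nsmul, zero_add]
  · rw [if_neg h, if_neg h, one_nsmul, add_zero]

/-- extras -/
def EX (n : ZMod p → ℕ) (x : ZMod p → ℕ) : Prop := x 0 = 0 ∧ ∀ v, x v ≤ n v - 1

/-- nothing is dropped -/
theorem type_one (hp : 5 ≤ p) (hn : ∑ v, n v + 1 = 2 * p) (hbad : BAD p n)
    (h0 : #(emp n) + 1 ≤ n 0) {x : ZMod p → ℕ} (hx : EX n x) (ht : ∑ v, x v ≤ #(emp n)) :
    ∑ v, x v • v ≠ ∑ v ∈ emp n, v := by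
  intro hcon
  obtain ⟨v, hv, hv'⟩ := bad_one hn hbad
    (c := fun v => (if n v = 0 then 0 else 1) + x v + if v = 0 then #(emp n) - ∑ v, x v else 0) (by
      intro v
      show (if n v = 0 then 0 else 1) + x v + (if v = 0 then #(emp n) - ∑ v, x v else 0) ≤ n v
      have h1 := hx.2 v
      by_cases hv0 : v = 0
      · rw [if_pos hv0, hv0, hx.1]
        split <;> omega
      · rw [if_neg hv0]
        split <;> omega) (by
      rw [sum_add_distrib, sum_add_distrib, sum_ite_eq' univ 0, if_pos (mem_univ _)]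
      have := one_sum (n := n)
      omega) (by
      simp only [add_nsmul]
      rw [sum_add_distrib, sum_add_distrib, hcon, one_smul_sum hp, zero_add]
      apply sum_eq_zero
      intro v _
      by_cases hv0 : v = 0
      · rw [hv0, smul_zero]
      · rw [if_neg hv0, zero_nsmul])
  have h1 : (if n v = 0 then 0 else 1) + x v + (if v = 0 then #(emp n) - ∑ v, x v else 0) = 0 := hv
  rw [if_neg hv'] at h1
  omega

/-- one class `z` is dropped -/
theorem type_two (hp : 5 ≤ p) (hn : ∑ v, n v + 1 = 2 * p) (hbad : BAD p n)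
    {x : ZMod p → ℕ} (hx : EX n x) {z : ZMod p} (hz : z ≠ 0) (hnz : 1 ≤ n z) {k : ℕ} (hk : 1 ≤ k)
    (hkn : k ≤ n 0) (ht : ∑ v, x v + k = #(emp n) + 2) (hs' : ∑ v, x v • v = ∑ v ∈ emp n, v + z) :
    F (n 0) k + 2 ≤ p ∧ F (n 0) k + 1 ≤ n z + (n 0 - k) := by
  classical
  set c : ZMod p → ℕ := fun v => (if n v = 0 ∨ v = z then 0 else 1) + x v +
    if v = 0 then k - 1 else 0 with hc
  have hsplit : ∀ v : ZMod p, (if n v = 0 ∨ v = z then 0 else 1) + (if v = z then 1 else 0) =
      (if n v = 0 then 0 else 1) := by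
    intro v
    by_cases h1 : v = z
    · rw [if_pos (Or.inr h1), if_pos h1, h1, if_neg (by omega)]
    · rw [if_neg h1]
      by_cases h2 : n v = 0
      · rw [if_pos (Or.inl h2), if_pos h2]
      · rw [if_neg (by
          rintro (h | h)
          · exact h2 h
          · exact h1 h), if_neg h2]
  have hn00 : n 0 ≠ 0 := by omega
  have hc0 : c 0 = k := by
    show (if n 0 = 0 ∨ 0 = z then 0 else 1) + x 0 + (if (0 : ZMod p) = 0 then k - 1 else 0) = k
    rw [if_neg (by
      rintro (h | h)
      · exact hn00 h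
      · exact hz h.symm), hx.1, if_pos rfl]
    omega
  have hcn : ∀ v, c v ≤ n v := by
    intro v
    by_cases hv0 : v = 0
    · rw [hv0, hc0]
      exact hkn
    show (if n v = 0 ∨ v = z then 0 else 1) + x v + (if v = 0 then k - 1 else 0) ≤ n v
    have h1 := hx.2 v
    rw [if_neg hv0]
    by_cases h2 : n v = 0
    · rw [if_pos (Or.inl h2)]
      omega
    · split <;> omega
  have hcsum : ∑ v, c v = p := by
    rw [hc]
    rw [sum_add_distrib, sum_add_distrib, sum_ite_eq' univ 0, if_pos (mem_univ _)]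
    have h1 := one_sum (n := n)
    have h2 := sum_congr (rfl : (univ : Finset (ZMod p)) = univ) (fun v _ => hsplit v)
    rw [sum_add_distrib, sum_ite_eq' univ z, if_pos (mem_univ _)] at h2
    omega
  have hcs : ∑ v, c v • v = 0 := by
    rw [hc]
    simp only [add_nsmul]
    rw [sum_add_distrib, sum_add_distrib, hs']
    have h1 := one_smul_sum (n := n) hp
    have h2 : ∀ v : ZMod p, (if n v = 0 ∨ v = z then 0 else 1) • v + (if v = z then v else 0) =
        (if n v = 0 then 0 else 1) • v := by
      intro v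
      rw [← hsplit v, add_nsmul]
      congr 1
      by_cases h : v = z
      · rw [if_pos h, if_pos h, one_nsmul]
      · rw [if_neg h, if_neg h, zero_nsmul]
    have h3 := sum_congr (rfl : (univ : Finset (ZMod p)) = univ) (fun v _ => h2 v)
    rw [sum_add_distrib, sum_ite_eq' univ z, if_pos (mem_univ _)] at h3
    have h4 : ∑ v : ZMod p, (if v = 0 then k - 1 else 0) • v = 0 := by
      apply sum_eq_zero
      intro v _
      by_cases hv0 : v = 0
      · rw [hv0, smul_zero]
      · rw [if_neg hv0, zero_nsmul]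
    rw [h4, add_zero]
    linear_combination h1 + h3
  constructor
  · have h1 := hbad c hcn hcsum hcs
    have h2 : F (n 0) (c 0) ≤ ∑ v, F (n v) (c v) :=
      single_le_sum (f := fun v => F (n v) (c v)) (fun _ _ => Nat.zero_le _) (mem_univ (0 : ZMod p))
    rw [hc0] at h2
    omega
  · have h1 := bad_two hn hbad hcn hcsum hcs (z := z) (W := {0}) (by
      intro v hv
      by_contra hcon
      have h2 : (if n v = 0 ∨ v = z then 0 else 1) + x v + (if v = 0 then k - 1 else 0) = 0 := hv
      rw [if_neg hcon] at h2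
      omega) (by
      intro w hw
      rw [mem_singleton] at hw
      rw [hw, hc0]
      omega)
    rw [sum_singleton, sum_singleton, hc0] at h1
    exact h1

open Classical in
/-- the sums of extras -/
noncomputable def A1 (n : ZMod p → ℕ) (r : ℕ) : Finset (ZMod p) :=
  univ.filter (fun y => ∃ x : ZMod p → ℕ, EX n x ∧ 1 ≤ ∑ v, x v ∧ ∑ v, x v ≤ r ∧
    ∑ v, x v • v = y)

theorem mem_A1 {r : ℕ} {y : ZMod p} : y ∈ A1 n r ↔ ∃ x : ZMod p → ℕ, EX n x ∧
    1 ≤ ∑ v, x v ∧ ∑ v, x v ≤ r ∧ ∑ v, x v • v = y := by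
  simp [A1]

/-- the number of sums of extras -/
theorem A1_card {r : ℕ} {e : ZMod p} (he : e ≠ 0) (he1 : e ∉ A1 n r) :
    ∑ v ∈ univ.erase (0 : ZMod p), min (n v - 1) r ≤ #(A1 n r) := by
  classical
  set a : ZMod p → ℕ := fun v => if v = 0 then r else n v - 1 with ha
  have ha0 : a 0 = r := by
    show (if (0 : ZMod p) = 0 then r else n 0 - 1) = r
    rw [if_pos rfl]
  have h1 := card_levels a r (w := 0) (by omega)
  have h2 : ∑ v, min (a v) r = r + ∑ v ∈ univ.erase (0 : ZMod p), min (n v - 1) r := by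
    rw [← add_sum_erase _ _ (mem_univ (0 : ZMod p)), ha0, min_self]
    congr 1
    apply sum_congr rfl
    intro v hv
    show min (if v = 0 then r else n v - 1) r = _
    rw [if_neg (mem_erase.1 hv).1]
  have h3 : (thrs a r).sum ⊆ insert 0 (A1 n r) := by
    intro y hy
    obtain ⟨x, hx1, hx2, hx3, hx4⟩ := sel_levels a r y hy
    rw [mem_insert, mem_A1]
    set x' : ZMod p → ℕ := fun v => if v = 0 then 0 else x v with hx'
    have h4 : ∑ v, x' v • v = y := by
      rw [← hx4]
      apply sum_congr rfl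
      intro v _
      show (if v = 0 then 0 else x v) • v = x v • v
      by_cases hv : v = 0
      · rw [hv, smul_zero, smul_zero]
      · rw [if_neg hv]
    have h5 : ∑ v, x' v ≤ r := by
      rw [← hx3]
      apply sum_le_sum
      intro v _
      show (if v = 0 then 0 else x v) ≤ x v
      split <;> omega
    by_cases h6 : ∑ v, x' v = 0
    · left
      rw [sum_eq_zero_iff] at h6
      rw [← h4]
      apply sum_eq_zero
      intro v hv
      rw [h6 v hv, zero_nsmul]
    · right
      refine ⟨x', ⟨?_, ?_⟩, by omega, h5, h4⟩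
      · show (if (0 : ZMod p) = 0 then 0 else x 0) = 0
        rw [if_pos rfl]
      · intro v
        show (if v = 0 then 0 else x v) ≤ n v - 1
        by_cases hv : v = 0
        · rw [if_pos hv]
          omega
        · rw [if_neg hv]
          have h7 : x v ≤ (if v = 0 then r else n v - 1) := hx1 v
          rwa [if_neg hv] at h7
  have h4 : #(insert 0 (A1 n r)) < p := by
    have h5 : insert 0 (A1 n r) ⊆ univ.erase e := by
      intro y hy
      rw [mem_erase]
      refine ⟨?_, mem_univ _⟩
      rintro rfl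
      rw [mem_insert] at hy
      rcases hy with hy | hy
      · exact he hy
      · exact he1 hy
    have h6 := card_le_card h5
    rw [card_erase_of_mem (mem_univ _), card_univ, ZMod.card] at h6
    have := (Fact.out : p.Prime).pos
    omega
  have h5 := card_le_card h3
  have h6 := card_insert_le (0 : ZMod p) (A1 n r)
  rw [h2] at h1
  omega

/-- shifted sets avoiding `A1` -/
theorem A1_le {r : ℕ} {e : ZMod p} {S : Finset (ZMod p)} (hS : ∀ z ∈ S, e + z ∉ A1 n r) :
    #(A1 n r) + #S ≤ p := by
  classical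
  have h1 : Disjoint (A1 n r) (S.image (fun z => e + z)) := by
    rw [Finset.disjoint_left]
    intro y hy hy'
    rw [mem_image] at hy'
    obtain ⟨z, hz, rfl⟩ := hy'
    exact hS z hz hy
  have h2 := card_le_univ (A1 n r ∪ S.image (fun z => e + z))
  rw [card_union_of_disjoint h1, card_image_of_injective _ (add_right_injective e), ZMod.card] at h2
  exact h2

end Pool.Agent.Lib.MPa7239a.KP
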