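import Pool.Agent.Lib.MP_a7239a_co.KP.W3

/-!
# Weights on `Z_p` with at least two empty classes: small maximum, small cases
-/

open scoped Pointwise
open Finset

set_option linter.unusedSectionVars false

namespace Pool.Agent.Lib.MPa7239a.KP

open Pool.Agent.Lib.MPa7239a.Q3
open Pool.Agent.Lib.MPa7239a.TP

variable {p : ℕ} [Fact p.Prime] {n : ZMod p → ℕ}

theorem exists_part (a : ZMod p → ℕ) : ∀ k, k ≤ ∑ v, a v →
    ∃ f : ZMod p → ℕ, (∀ v, f v ≤ a v) ∧ ∑ v, f v = k := by
  intro k
  induction k with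
  | zero => intro _; exact ⟨fun _ => 0, fun _ => Nat.zero_le _, by simp⟩
  | succ k ih =>
    intro hk
    obtain ⟨f, hf, hfk⟩ := ih (by omega)
    obtain ⟨v, -, hv⟩ : ∃ v ∈ (univ : Finset (ZMod p)), f v < a v := by
      apply exists_lt_of_sum_lt
      omega
    refine ⟨fun w => f w + if w = v then 1 else 0, ?_, ?_⟩
    · intro w
      show f w + (if w = v then 1 else 0) ≤ a w
      by_cases h : w = v
      · rw [if_pos h, h]
        omega
      · rw [if_neg h]
        exact hf w
    · rw [sum_add_distrib, sum_ite_eq' univ v, if_pos (mem_univ _), hfk]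

theorem sum_pred (hn : ∑ v, n v + 1 = 2 * p) : ∑ v, (n v - 1) + 1 = p + #(emp n) := by
  have h1 : ∀ v : ZMod p, (n v - 1) + (if n v = 0 then 0 else 1) = n v := by
    intro v
    split <;> omega
  have h3 : ∑ v, (n v - 1) + (∑ v, if n v = 0 then 0 else 1) = ∑ v, n v := by
    rw [← sum_add_distrib]
    exact sum_congr rfl (fun v _ => h1 v)
  have h4 := one_sum (n := n)
  omega

/-- the maximum is at least `#(emp n) + 2` -/
theorem small_max (hp : 5 ≤ p) (hn : ∑ v, n v + 1 = 2 * p) (hbad : BAD p n)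
    (hmax : ∀ v, n v ≤ n 0) (h : n 0 ≤ #(emp n) + 1) : False := by
  classical
  set r := #(emp n) with hr
  have hpred := sum_pred hn
  rw [← hr] at hpred
  have h02 : 2 ≤ n 0 := by
    by_contra hcon
    have h1 : ∑ v, n v ≤ ∑ v : ZMod p, 1 := sum_le_sum fun v _ => by
      have := hmax v
      omega
    rw [sum_const, card_univ, ZMod.card, smul_eq_mul, mul_one] at h1
    omega
  have h0sum : (n 0 - 1) + ∑ v ∈ univ.erase (0 : ZMod p), (n v - 1) = ∑ v, (n v - 1) :=
    add_sum_erase univ (fun v => n v - 1) (mem_univ (0 : ZMod p))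
  obtain ⟨f, hf, hfk⟩ := exists_part (fun v => if v = 0 then 0 else n v - 1) (r + 1 - n 0) (by
    rw [← add_sum_erase _ _ (mem_univ (0 : ZMod p)), if_pos rfl, zero_add]
    have h1 : ∑ v ∈ univ.erase (0 : ZMod p), (if v = 0 then 0 else n v - 1) =
        ∑ v ∈ univ.erase (0 : ZMod p), (n v - 1) := by
      apply sum_congr rfl
      intro v hv
      rw [if_neg (mem_erase.1 hv).1]
    rw [h1]
    omega)
  have hf0 : f 0 = 0 := by
    have h1 : f 0 ≤ (if (0 : ZMod p) = 0 then 0 else n 0 - 1) := hf 0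
    rw [if_pos rfl] at h1
    omega
  have hf' : ∀ v, f v ≤ n v - 1 := by
    intro v
    have h1 : f v ≤ (if v = 0 then 0 else n v - 1) := hf v
    split at h1 <;> omega
  set a : ZMod p → ℕ := fun v => n v - 1 - f v with ha
  have ham : ∀ v, a v ≤ n 0 - 1 := by
    intro v
    have h1 := hmax v
    show n v - 1 - f v ≤ n 0 - 1
    omega
  have h1 := card_levels a (n 0 - 1) (w := 0) (by
    show n 0 - 1 ≤ n 0 - 1 - f 0
    omega)
  have h2 : ∑ v, min (a v) (n 0 - 1) + ∑ v, f v = ∑ v, (n v - 1) := by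
    rw [← sum_add_distrib]
    apply sum_congr rfl
    intro v _
    rw [min_eq_left (ham v)]
    exact Nat.sub_add_cancel (hf' v)
  have h3 : (thrs a (n 0 - 1)).sum = univ := by
    apply (card_eq_iff_eq_univ _).1
    apply le_antisymm (card_le_univ _)
    rw [ZMod.card]
    omega
  obtain ⟨g, hg1, -, hg3, hg4⟩ := sel_levels a (n 0 - 1)
    (-(∑ v : ZMod p, (if n v = 0 then 0 else 1) • v + ∑ v, f v • v)) (by
      rw [h3]
      exact mem_univ _)
  obtain ⟨v, hv, hv'⟩ := bad_one hn hbad
    (c := fun v => (if n v = 0 then 0 else 1) + f v + g v) (by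
      intro v
      show (if n v = 0 then 0 else 1) + f v + g v ≤ n v
      have h4 : g v ≤ n v - 1 - f v := hg1 v
      have h5 := hf' v
      split <;> omega) (by
      rw [sum_add_distrib, sum_add_distrib, hg3, hfk]
      have := one_sum (n := n)
      omega) (by
      simp only [add_nsmul]
      rw [sum_add_distrib, sum_add_distrib, hg4]
      abel)
  have h4 : (if n v = 0 then 0 else 1) + f v + g v = 0 := hv
  rw [if_neg hv'] at h4
  omega

theorem nat_smul_ne {g : ZMod p} (hg : g ≠ 0) {j : ℕ} (h0 : 0 < j) (hj : j < p) :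
    (j : ZMod p) * g ≠ 0 := by
  intro h
  rcases mul_eq_zero.1 h with h3 | h3
  · rw [ZMod.natCast_eq_zero_iff] at h3
    have := Nat.le_of_dvd h0 h3
    omega
  · exact hg h3

theorem nat_smul_inj {g : ZMod p} (hg : g ≠ 0) {i j : ℕ} (hi : i < p) (hj : j < p)
    (h : (i : ZMod p) * g = (j : ZMod p) * g) : i = j := by
  rcases Nat.lt_trichotomy i j with h1 | h1 | h1
  · exfalso
    apply nat_smul_ne hg (j := j - i) (by omega) (by omega)
    rw [Nat.cast_sub h1.le]
    linear_combination -h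
  · exact h1
  · exfalso
    apply nat_smul_ne hg (j := i - j) (by omega) (by omega)
    rw [Nat.cast_sub h1.le]
    linear_combination h

/-- `j` extras at `g` and `i` extras at `v` -/
def ex2 (g : ZMod p) (j : ℕ) (v : ZMod p) (i : ℕ) (w : ZMod p) : ℕ :=
  (if w = g then j else 0) + (if w = v then i else 0)

theorem ex2_sum (g : ZMod p) (j : ℕ) (v : ZMod p) (i : ℕ) : ∑ w, ex2 g j v i w = j + i := by
  unfold ex2
  rw [sum_add_distrib, sum_ite_eq' univ g, sum_ite_eq' univ v, if_pos (mem_univ _),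
    if_pos (mem_univ _)]

theorem ex2_smul (g : ZMod p) (j : ℕ) (v : ZMod p) (i : ℕ) :
    ∑ w, ex2 g j v i w • w = (j : ZMod p) * g + (i : ZMod p) * v := by
  unfold ex2
  simp only [add_nsmul, ite_smul, zero_nsmul]
  rw [sum_add_distrib, sum_ite_eq' univ g, sum_ite_eq' univ v, if_pos (mem_univ _),
    if_pos (mem_univ _), nsmul_eq_mul, nsmul_eq_mul]

theorem ex2_EX {g v : ZMod p} {j i : ℕ} (hg : g ≠ 0) (hv : v ≠ 0) (hgv : g ≠ v)
    (hj : j ≤ n g - 1) (hi : i ≤ n v - 1) : EX n (ex2 g j v i) := by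
  constructor
  · unfold ex2
    rw [if_neg (Ne.symm hg), if_neg (Ne.symm hv)]
  · intro w
    unfold ex2
    by_cases h1 : w = g
    · rw [if_pos h1, if_neg (by rw [h1]; exact hgv), h1]
      exact hj
    · rw [if_neg h1]
      by_cases h2 : w = v
      · rw [if_pos h2, h2]
        omega
      · rw [if_neg h2]
        omega

end Pool.Agent.Lib.MPa7239a.KP
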