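import Pool.Agent.Lib.MP_a7239a_co.KP.W4

/-!
# Weights on `Z_p` with at least two empty classes: one, two or three rich classes
-/

open scoped Pointwise
open Finset

set_option linter.unusedSectionVars false

namespace Pool.Agent.Lib.MPa7239a.KP

open Pool.Agent.Lib.MPa7239a.Q3
open Pool.Agent.Lib.MPa7239a.TP

variable {p : ℕ} [Fact p.Prime] {n : ZMod p → ℕ}

/-- `j` extras at `g` -/
def ex1 (g : ZMod p) (j : ℕ) (w : ZMod p) : ℕ := if w = g then j else 0

theorem ex1_sum (g : ZMod p) (j : ℕ) : ∑ w, ex1 g j w = j := by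
  unfold ex1
  rw [sum_ite_eq' univ g, if_pos (mem_univ _)]

theorem ex1_smul (g : ZMod p) (j : ℕ) : ∑ w, ex1 g j w • w = (j : ZMod p) * g := by
  unfold ex1
  simp only [ite_smul, zero_nsmul]
  rw [sum_ite_eq' univ g, if_pos (mem_univ _), nsmul_eq_mul]

theorem ex1_EX {g : ZMod p} {j : ℕ} (hg : g ≠ 0) (hj : j ≤ n g - 1) : EX n (ex1 g j) := by
  constructor
  · unfold ex1
    rw [if_neg (Ne.symm hg)]
  · intro w
    unfold ex1
    by_cases h1 : w = g
    · rw [if_pos h1, h1]
      exact hj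
    · rw [if_neg h1]
      omega

/-- the hypotheses -/
structure Hyp (p : ℕ) [Fact p.Prime] (n : ZMod p → ℕ) : Prop where
  hp : 5 ≤ p
  hn : ∑ v, n v + 1 = 2 * p
  hbad : BAD p n
  hlt : n 0 < p
  hmax : ∀ v, n v ≤ n 0
  hr : 2 ≤ #(emp n)
  hbig : #(emp n) + 2 ≤ n 0

namespace Hyp

variable (H : Hyp p n)

include H

theorem one {x : ZMod p → ℕ} (hx : EX n x) (ht : ∑ v, x v ≤ #(emp n)) :
    ∑ v, x v • v ≠ ∑ v ∈ emp n, v :=
  type_one H.hp H.hn H.hbad (by have := H.hbig; omega) hx ht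

theorem two {x : ZMod p → ℕ} (hx : EX n x) (h1 : 1 ≤ ∑ v, x v) (ht : ∑ v, x v ≤ #(emp n))
    {z : ZMod p} (hz : z ≠ 0) (hnz : n z ≠ 0) (hs' : ∑ v, x v • v = ∑ v ∈ emp n, v + z) :
    n 0 + 2 ≤ 2 * n z := by
  have hb := H.hbig
  have h2 := (type_two H.hp H.hn H.hbad hx hz (by omega) (k := #(emp n) + 2 - ∑ v, x v)
    (by omega) (by omega) (by omega) hs').2
  have h3 := F_gain (m := n 0) (k := #(emp n) + 2 - ∑ v, x v) (by omega) (by omega) (by
    have := H.hr
    omega)
  omega

/-- multiples of `g` -/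
theorem not_mul {g : ZMod p} (hg : g ≠ 0) {j : ℕ} (hj : j ≤ n g - 1) (hjr : j ≤ #(emp n)) :
    (j : ZMod p) * g ≠ ∑ v ∈ emp n, v := by
  rw [← ex1_smul]
  exact H.one (ex1_EX hg hj) (by rw [ex1_sum]; exact hjr)

theorem not_two {g v : ZMod p} (hg : g ≠ 0) (hv : v ≠ 0) (hgv : g ≠ v) {j i : ℕ}
    (hj : j ≤ n g - 1) (hi : i ≤ n v - 1) (hjr : j + i ≤ #(emp n)) :
    (j : ZMod p) * g + (i : ZMod p) * v ≠ ∑ v ∈ emp n, v := by
  rw [← ex2_smul]
  exact H.one (ex2_EX hg hv hgv hj hi) (by rw [ex2_sum]; exact hjr)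

/-- where the shifted sums lie -/
theorem shift {x : ZMod p → ℕ} (hx : EX n x) (h1 : 1 ≤ ∑ v, x v) (ht : ∑ v, x v ≤ #(emp n)) :
    (∑ v, x v • v - ∑ v ∈ emp n, v) ∈ emp n ∨
    ((∑ v, x v • v - ∑ v ∈ emp n, v) ≠ 0 ∧
      n 0 + 2 ≤ 2 * n (∑ v, x v • v - ∑ v ∈ emp n, v)) := by
  by_cases h2 : n (∑ v, x v • v - ∑ v ∈ emp n, v) = 0
  · left
    exact mem_emp.2 h2
  · right
    have h3 : (∑ v, x v • v - ∑ v ∈ emp n, v) ≠ 0 := by
      intro h
      exact H.one hx ht (sub_eq_zero.1 h)
    exact ⟨h3, H.two hx h1 ht h3 h2 (by ring)⟩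

theorem e_ne : ∑ v ∈ emp n, v ≠ 0 := by
  intro h
  have h1 := H.one (x := fun _ => 0) ⟨rfl, fun v => Nat.zero_le _⟩ (by simp)
  apply h1
  rw [h]
  simp

/-- if only `g` and `v₁` may be rich (besides `0`), the empty classes are `j g - e` -/
theorem emp_eq {g : ZMod p} (hg : g ≠ 0) (hgr : #(emp n) ≤ n g - 1)
    (hX : ∀ w, w ≠ 0 → w ≠ g → 2 * n w < n 0 + 2) :
    emp n = (Icc 1 #(emp n)).image (fun j : ℕ => (j : ZMod p) * g - ∑ v ∈ emp n, v) := by
  classical
  have hb := H.hbig
  have hlt := H.hlt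
  have hsub : (Icc 1 #(emp n)).image (fun j : ℕ => (j : ZMod p) * g - ∑ v ∈ emp n, v) ⊆
      emp n := by
    intro w hw
    rw [mem_image] at hw
    obtain ⟨j, hj, rfl⟩ := hw
    rw [mem_Icc] at hj
    have h1 := H.shift (ex1_EX hg (show j ≤ n g - 1 by omega)) (by rw [ex1_sum]; omega)
      (by rw [ex1_sum]; omega)
    rw [ex1_smul] at h1
    rcases h1 with h1 | ⟨h1, h2⟩
    · exact h1
    · exfalso
      by_cases h3 : (j : ZMod p) * g - ∑ v ∈ emp n, v = g
      · apply H.not_mul hg (j := j - 1) (by omega) (by omega)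
        rw [Nat.cast_sub hj.1]
        push_cast
        linear_combination h3
      · have := hX _ h1 h3
        omega
  have hinj : #((Icc 1 #(emp n)).image (fun j : ℕ => (j : ZMod p) * g - ∑ v ∈ emp n, v)) =
      #(emp n) := by
    rw [card_image_of_injOn]
    · rw [Nat.card_Icc]
      omega
    · intro i hi j hj hij
      rw [mem_coe, mem_Icc] at hi hj
      have h3 : (i : ZMod p) * g - ∑ v ∈ emp n, v = (j : ZMod p) * g - ∑ v ∈ emp n, v := hij
      exact nat_smul_inj hg (by omega) (by omega) (sub_left_injective h3)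
  exact (eq_of_subset_of_card_le hsub (le_of_eq hinj.symm)).symm

theorem mem_emp_iff {g : ZMod p} (hg : g ≠ 0) (hgr : #(emp n) ≤ n g - 1)
    (hX : ∀ w, w ≠ 0 → w ≠ g → 2 * n w < n 0 + 2) {w : ZMod p} (hw : w ∈ emp n) :
    ∃ j : ℕ, 1 ≤ j ∧ j ≤ #(emp n) ∧ w = (j : ZMod p) * g - ∑ v ∈ emp n, v := by
  rw [H.emp_eq hg hgr hX, mem_image] at hw
  obtain ⟨j, hj, h⟩ := hw
  rw [mem_Icc] at hj
  exact ⟨j, hj.1, hj.2, h.symm⟩

/-- two rich classes: `0` and `g` -/
theorem caseA {g : ZMod p} (hg : g ≠ 0) (hgr : #(emp n) ≤ n g - 1)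
    (hX : ∀ w, w ≠ 0 → w ≠ g → n w ≤ 1) : False := by
  classical
  have hb := H.hbig
  have hlt := H.hlt
  have hr := H.hr
  have hpp : p.Prime := Fact.out
  have hX2 : ∀ w, w ≠ 0 → w ≠ g → 2 * n w < n 0 + 2 := by
    intro w h1 h2
    have := hX w h1 h2
    omega
  have hE := H.emp_eq hg hgr hX2
  have he := H.e_ne
  set r := #(emp n) with hrdef
  set e := ∑ v ∈ emp n, v with hedef
  -- the sum of the empty classes
  have h2e : (2 : ZMod p) * e = (r : ZMod p) * g := by
    have h1 : e = ∑ j ∈ Icc 1 r, ((j : ZMod p) * g - e) := by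
      conv_lhs => rw [hedef, hE]
      rw [sum_image]
      intro i hi j hj hij
      rw [mem_coe, mem_Icc] at hi hj
      have h3 : (i : ZMod p) * g - e = (j : ZMod p) * g - e := hij
      exact nat_smul_inj hg (by omega) (by omega) (sub_left_injective h3)
    have h2 : ∀ m : ℕ, (2 : ZMod p) * ∑ j ∈ Icc 1 m, ((j : ZMod p) * g - e) =
        (m : ZMod p) * (m + 1) * g - 2 * m * e := by
      intro m
      induction m with
      | zero => simp
      | succ m ih =>
        rw [sum_Icc_succ_top (by omega), mul_add, ih]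
        push_cast
        ring
    have h3 := h2 r
    rw [← h1] at h3
    have h4 : ((r + 1 : ℕ) : ZMod p) * (2 * e - r * g) = 0 := by
      push_cast
      linear_combination h3
    rcases mul_eq_zero.1 h4 with h5 | h5
    · exfalso
      rw [ZMod.natCast_eq_zero_iff] at h5
      have := Nat.le_of_dvd (by omega) h5
      omega
    · linear_combination h5
  have hodd : r % 2 = 1 := by
    by_contra hcon
    obtain ⟨s, hs'⟩ : ∃ s, r = 2 * s := ⟨r / 2, by omega⟩
    have h3 : (2 : ZMod p) * e = 2 * ((s : ZMod p) * g) := by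
      rw [h2e, hs']
      push_cast
      ring
    have h4 := mul_left_cancel₀ (two_ne H.hp) h3
    exact H.not_mul hg (j := s) (by omega) (by omega) h4.symm
  -- sizes
  have hpred := sum_pred H.hn
  have h0m : (0 : ZMod p) ∈ (univ : Finset (ZMod p)) := mem_univ _
  have hgm : g ∈ univ.erase (0 : ZMod p) := mem_erase.2 ⟨hg, mem_univ _⟩
  rw [← add_sum_erase _ _ h0m, ← add_sum_erase _ _ hgm, sum_eq_zero (by
    intro v hv
    rw [mem_erase, mem_erase] at hv
    have := hX v hv.2.1 hv.1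
    omega)] at hpred
  have hgmax := H.hmax g
  have hpodd : p % 2 = 1 := hpp.eq_two_or_odd.resolve_left (by have := H.hp; omega)
  have hb3 : r + 3 ≤ n 0 := by
    by_contra hcon
    omega
  -- the class `- e`
  have hz0 : -e ≠ 0 := neg_ne_zero.2 he
  have hzE : n (-e) ≠ 0 := by
    intro h
    obtain ⟨j, hj1, hj2, hj3⟩ := H.mem_emp_iff hg hgr hX2 (mem_emp.2 h)
    apply nat_smul_ne hg (j := j) (by omega) (by omega)
    linear_combination -hj3
  have hzg : -e ≠ g := by
    intro h
    apply nat_smul_ne hg (j := r + 2) (by omega) (by omega)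
    push_cast
    linear_combination -h2e - 2 * h
  have hz1 := hX _ hz0 hzg
  have h2 := (type_two H.hp H.hn H.hbad (x := fun _ => 0) ⟨rfl, fun v => Nat.zero_le _⟩ hz0
    (by omega) (k := r + 2) (by omega) (by omega) (by rw [← hrdef]; simp)
    (by rw [← hedef]; simp)).2
  have h3 := F_gain (m := n 0) (k := r + 2) (by omega) (by omega) (by omega)
  omega

/-- three rich classes, one of them with two elements -/
theorem caseB {g v : ZMod p} (hg : g ≠ 0) (hgr : #(emp n) ≤ n g - 1) (hv : v ≠ 0) (hgv : g ≠ v)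
    (hnv : n v = 2) (hX : ∀ w, w ≠ 0 → w ≠ g → w ≠ v → n w ≤ 1) : False := by
  classical
  have hb := H.hbig
  have hlt := H.hlt
  have hr := H.hr
  have hX2 : ∀ w, w ≠ 0 → w ≠ g → 2 * n w < n 0 + 2 := by
    intro w h1 h2
    by_cases h3 : w = v
    · rw [h3, hnv]
      omega
    · have := hX w h1 h2 h3
      omega
  -- the class `g + v - e`
  have h1 := H.shift (ex2_EX hg hv hgv (show 1 ≤ n g - 1 by omega) (show 1 ≤ n v - 1 by omega))
    (by rw [ex2_sum]; omega) (by rw [ex2_sum]; omega)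
  rw [ex2_smul] at h1
  have h1' : ((1 : ℕ) : ZMod p) * g + ((1 : ℕ) : ZMod p) * v - ∑ v ∈ emp n, v ∈ emp n := by
    rcases h1 with h1 | ⟨h1, h2⟩
    · exact h1
    · exfalso
      by_cases h3 : ((1 : ℕ) : ZMod p) * g + ((1 : ℕ) : ZMod p) * v - ∑ v ∈ emp n, v = g
      · apply H.not_mul hv (j := 1) (by omega) (by omega)
        push_cast at h3 ⊢
        linear_combination h3
      · have := hX2 _ h1 h3
        omega
  obtain ⟨a, ha1, ha2, ha3⟩ := H.mem_emp_iff hg hgr hX2 h1'
  have hva : v = (a : ZMod p) * g - g := by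
    push_cast at ha3
    linear_combination ha3
  have ha4 : a ≠ 1 := by
    rintro rfl
    apply hv
    rw [hva]
    push_cast
    ring
  have ha5 : a ≠ 2 := by
    rintro rfl
    apply hgv
    rw [hva]
    push_cast
    ring
  -- the class `(r + 1) g - e`
  have h2 := H.shift (ex2_EX hg hv hgv (show #(emp n) + 2 - a ≤ n g - 1 by omega)
    (show 1 ≤ n v - 1 by omega)) (by rw [ex2_sum]; omega) (by rw [ex2_sum]; omega)
  rw [ex2_smul] at h2
  have h3 : ((#(emp n) + 2 - a : ℕ) : ZMod p) * g + ((1 : ℕ) : ZMod p) * v =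
      ((#(emp n) + 1 : ℕ) : ZMod p) * g := by
    rw [Nat.cast_sub (by omega), hva]
    push_cast
    ring
  rw [h3] at h2
  rcases h2 with h2 | ⟨h2, h4⟩
  · obtain ⟨b, hb1, hb2, hb3⟩ := H.mem_emp_iff hg hgr hX2 h2
    have h5 : ((#(emp n) + 1 : ℕ) : ZMod p) * g = (b : ZMod p) * g := by
      linear_combination hb3
    have := nat_smul_inj hg (by omega) (by omega) h5
    omega
  · by_cases h5 : ((#(emp n) + 1 : ℕ) : ZMod p) * g - ∑ v ∈ emp n, v = g
    · apply H.not_mul hg (j := #(emp n)) (by omega) le_rfl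
      push_cast at h5
      linear_combination h5
    · have := hX2 _ h2 h5
      omega

/-- two empty classes, three rich classes, `g' = 2 g` -/
theorem caseC1 {g : ZMod p} (hg : g ≠ 0) (hr2 : #(emp n) = 2) (hng : 3 ≤ n g)
    (hng' : 3 ≤ n (g + g)) (hX : ∀ w, w ≠ 0 → w ≠ g → w ≠ g + g → n w ≤ 1) : False := by
  classical
  have hb := H.hbig
  have hlt := H.hlt
  have hp := H.hp
  have hgg0 : g + g ≠ 0 := by
    intro h
    exact nat_smul_ne hg (j := 2) (by omega) (by omega) (by
      push_cast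
      linear_combination h)
  have hgg : g ≠ g + g := by
    intro h
    exact hg (by simpa using h.symm)
  -- the four shifted sums
  have hsub : (Icc 1 4).image (fun j : ℕ => (j : ZMod p) * g - ∑ v ∈ emp n, v) ⊆
      insert (g + g) (emp n) := by
    intro w hw
    rw [mem_image] at hw
    obtain ⟨j, hj, rfl⟩ := hw
    rw [mem_Icc] at hj
    rw [mem_insert]
    obtain ⟨x, hx1, hx2, hx3, hx4⟩ : ∃ x, EX n x ∧ 1 ≤ ∑ v, x v ∧ ∑ v, x v ≤ #(emp n) ∧
        ∑ v, x v • v = (j : ZMod p) * g := by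
      have hj' : j = 1 ∨ j = 2 ∨ j = 3 ∨ j = 4 := by omega
      rcases hj' with rfl | rfl | rfl | rfl
      · exact ⟨ex1 g 1, ex1_EX hg (by omega), by rw [ex1_sum], by rw [ex1_sum]; omega, ex1_smul g 1⟩
      · exact ⟨ex1 g 2, ex1_EX hg (by omega), by rw [ex1_sum]; omega, by rw [ex1_sum]; omega,
          ex1_smul g 2⟩
      · refine ⟨ex2 g 1 (g + g) 1, ex2_EX hg hgg0 hgg (by omega) (by omega),
          by rw [ex2_sum]; omega, by rw [ex2_sum]; omega, ?_⟩
        rw [ex2_smul]
        push_cast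
        ring
      · refine ⟨ex1 (g + g) 2, ex1_EX hgg0 (by omega), by rw [ex1_sum]; omega,
          by rw [ex1_sum]; omega, ?_⟩
        rw [ex1_smul]
        push_cast
        ring
    have h1 := H.shift hx1 hx2 hx3
    rw [hx4] at h1
    rcases h1 with h1 | ⟨h1, h2⟩
    · exact Or.inr h1
    · left
      by_contra hcon
      by_cases h3 : (j : ZMod p) * g - ∑ v ∈ emp n, v = g
      · have h4 : ((j - 1 : ℕ) : ZMod p) * g = ∑ v ∈ emp n, v := by
          rw [Nat.cast_sub hj.1]
          push_cast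
          linear_combination h3
        have hj' : j - 1 = 0 ∨ j - 1 = 1 ∨ j - 1 = 2 ∨ j - 1 = 3 := by omega
        rcases hj' with h5 | h5 | h5 | h5
        · rw [h5] at h4
          exact H.not_mul hg (j := 0) (by omega) (by omega) h4
        · rw [h5] at h4
          exact H.not_mul hg (j := 1) (by omega) (by omega) h4
        · rw [h5] at h4
          exact H.not_mul hg (j := 2) (by omega) (by omega) h4
        · rw [h5] at h4
          apply H.not_two hg hgg0 hgg (j := 1) (i := 1) (by omega) (by omega) (by omega)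
          rw [← h4]
          push_cast
          ring
      · have := hX _ h1 h3 hcon
        omega
  have h1 := card_le_card hsub
  have h2 := card_insert_le (g + g) (emp n)
  rw [card_image_of_injOn (by
    intro i hi j hj hij
    rw [mem_coe, mem_Icc] at hi hj
    have h3 : (i : ZMod p) * g - ∑ v ∈ emp n, v = (j : ZMod p) * g - ∑ v ∈ emp n, v := hij
    exact nat_smul_inj hg (by omega) (by omega) (sub_left_injective h3)), Nat.card_Icc] at h1
  omega

/-- two empty classes, three rich classes -/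
theorem caseC2 {g g' : ZMod p} (hg : g ≠ 0) (hg' : g' ≠ 0) (hgg : g ≠ g') (hr2 : #(emp n) = 2)
    (hng : 3 ≤ n g) (hng' : 3 ≤ n g') (hX : ∀ w, w ≠ 0 → w ≠ g → w ≠ g' → n w ≤ 1)
    (h1 : g' ≠ g + g) (h2 : g ≠ g' + g') : False := by
  classical
  have hb := H.hbig
  have hp := H.hp
  have h2p := two_ne (p := p) hp
  have hcard : #({g, g', g + g, g' + g', g + g'} : Finset (ZMod p)) = 5 := by
    have e1 : g ≠ g + g := fun h => hg (by simpa using h.symm)
    have e2 : g ≠ g + g' := fun h => hg' (by simpa using h.symm)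
    have e3 : g' ≠ g' + g' := fun h => hg' (by simpa using h.symm)
    have e4 : g' ≠ g + g' := fun h => hg (by simpa using h.symm)
    have e5 : g + g ≠ g' + g' := by
      intro h
      apply hgg
      have : (2 : ZMod p) * g = 2 * g' := by linear_combination h
      exact mul_left_cancel₀ h2p this
    have e6 : g + g ≠ g + g' := fun h => hgg (add_left_cancel h)
    have e7 : g' + g' ≠ g + g' := fun h => hgg (add_right_cancel h).symm
    rw [card_insert_of_notMem, card_insert_of_notMem, card_insert_of_notMem,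
      card_insert_of_notMem, card_singleton]
    · rw [mem_singleton]
      exact e7
    · rw [mem_insert, mem_singleton, not_or]
      exact ⟨e5, e6⟩
    · rw [mem_insert, mem_insert, mem_singleton, not_or, not_or]
      exact ⟨h1, e3, e4⟩
    · rw [mem_insert, mem_insert, mem_insert, mem_singleton, not_or, not_or, not_or]
      exact ⟨hgg, e1, h2, e2⟩
  have hsub : ({g, g', g + g, g' + g', g + g'} : Finset (ZMod p)).image
      (fun y => y - ∑ v ∈ emp n, v) ⊆ insert g (insert g' (emp n)) := by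
    intro w hw
    rw [mem_image] at hw
    obtain ⟨y, hy, rfl⟩ := hw
    obtain ⟨x, hx1, hx2, hx3, hx4⟩ : ∃ x, EX n x ∧ 1 ≤ ∑ v, x v ∧ ∑ v, x v ≤ #(emp n) ∧
        ∑ v, x v • v = y := by
      rw [mem_insert, mem_insert, mem_insert, mem_insert, mem_singleton] at hy
      rcases hy with rfl | rfl | rfl | rfl | rfl
      · exact ⟨ex1 y 1, ex1_EX hg (by omega), by rw [ex1_sum], by rw [ex1_sum]; omega,
          by rw [ex1_smul]; push_cast; ring⟩
      · exact ⟨ex1 y 1, ex1_EX hg' (by omega), by rw [ex1_sum], by rw [ex1_sum]; omega,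
          by rw [ex1_smul]; push_cast; ring⟩
      · exact ⟨ex1 g 2, ex1_EX hg (by omega), by rw [ex1_sum]; omega, by rw [ex1_sum]; omega,
          by rw [ex1_smul]; push_cast; ring⟩
      · exact ⟨ex1 g' 2, ex1_EX hg' (by omega), by rw [ex1_sum]; omega, by rw [ex1_sum]; omega,
          by rw [ex1_smul]; push_cast; ring⟩
      · exact ⟨ex2 g 1 g' 1, ex2_EX hg hg' hgg (by omega) (by omega), by rw [ex2_sum]; omega,
          by rw [ex2_sum]; omega, by rw [ex2_smul]; push_cast; ring⟩
    have h3 := H.shift hx1 hx2 hx3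
    rw [hx4] at h3
    rw [mem_insert, mem_insert]
    rcases h3 with h3 | ⟨h3, h4⟩
    · exact Or.inr (Or.inr h3)
    · by_contra hcon
      rw [not_or, not_or] at hcon
      have := hX _ h3 hcon.1 hcon.2.1
      omega
  have h3 := card_le_card hsub
  rw [card_image_of_injective _ sub_left_injective, hcard] at h3
  have h4 := card_insert_le g (insert g' (emp n))
  have h5 := card_insert_le g' (emp n)
  omega

end Hyp

end Pool.Agent.Lib.MPa7239a.KP
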